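import Pool.Agent.Lib.MP_b07157_agSF.Strat
import Pool.Agent.Lib.MP_b07157_agS4.Cone
import Pool.Agent.Lib.MP_b07157_agU.Bridge

/-!
# Polynomials whose critical zeros have corank at most two
-/

noncomputable section

namespace MPb07157

open MvPolynomial

variable {n : ℕ}

theorem MonoAlong.mono {f : MvPolynomial (Fin n) ℂ} {V W : Set (Fin n → ℂ)}
    (h : MonoAlong f W) (hVW : V ⊆ W) : MonoAlong f V := fun U hU => h U (hU.trans hVW)

/-- A point at which the local version of the conjecture is known. -/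
theorem MonoAlong.of_point {f : MvPolynomial (Fin n) ℂ} (hf : f ≠ 0) {p : Fin n → ℂ}
    (h : translate p f ≠ 0 → coeff 0 (translate p f) = 0 → SmcLoc (translate p f)) :
    MonoAlong f {p} := by
  intro V hV hVc hV0 s₀ hs _ hser b hb
  have hne : V.Nonempty := by
    by_contra hne
    rw [Set.not_nonempty_iff_eq_empty] at hne
    apply hser
    exact seriesAt_mem_of_ne (f := f) (W := V) hVc hf (fun p hp => by
      rw [hne] at hp
      exact absurd hp (Set.notMem_empty p)) s₀
  obtain ⟨x, hx⟩ := hne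
  have hVp : V = {p} := Set.Subset.antisymm hV (by
    rw [Set.singleton_subset_iff, ← Set.mem_singleton_iff.1 (hV hx)]
    exact hx)
  rw [hVp, seriesAt_singleton] at hser
  have h0 : eval p f = 0 := hV0 p (by rw [hVp]; rfl)
  exact h (translate_ne_zero hf p) (coeff_zero_translate h0) s₀ hs hser b (form_translate p hb)

namespace CK

theorem hess_translate (f : MvPolynomial (Fin n) ℂ) (p : Fin n → ℂ) :
    SU.hess (translate p f) = YG.hessAt f p := by
  ext i j
  unfold SU.hess YG.hessAt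
  rw [Matrix.of_apply, Matrix.of_apply, pderiv_translate, pderiv_translate,
    MB.eval_eq_constantCoeff, constantCoeff_eq]

end CK

/-- **The strong monodromy conjecture, global version**, for the polynomials whose critical zeros `p`
outside sets along which the conjecture is known have a Hessian of rank at least `n - 2`. -/
theorem SmcGlob.of_corank {f : MvPolynomial (Fin n) ℂ} (hf : f ≠ 0) (h0 : coeff 0 f = 0)
    {T : Set (Set (Fin n → ℂ))} (hT : T.Finite) (hTW : ∀ W ∈ T, IsConstr W ∧ MonoAlong f W)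
    (h : ∀ p, eval p f = 0 → (∀ i, eval p (pderiv i f) = 0) →
      (∃ W ∈ T, p ∈ W) ∨ n ≤ (YG.hessAt f p).rank + 2) : SmcGlob f := by
  classical
  rcases n with _ | k
  · exfalso
    apply hf
    ext v
    rw [Subsingleton.elim v 0, h0, coeff_zero]
  set I : Ideal (MvPolynomial (Fin (k + 1)) ℂ) :=
    Ideal.span (insert f (Set.range fun i => pderiv i f)) with hI
  obtain ⟨T₂, hT₂, hT₂W, hcov⟩ := CK.exists_fin_cover (fun W => IsConstr W ∧ MonoAlong f W) I
    (fun 𝔭 h𝔭 hI𝔭 => by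
      have hf𝔭 : f ∈ 𝔭 := hI𝔭 (Ideal.subset_span (Set.mem_insert _ _))
      have hs : ∀ i, pderiv i f ∈ 𝔭 := fun i =>
        hI𝔭 (Ideal.subset_span (Set.mem_insert_of_mem _ ⟨i, rfl⟩))
      have h1𝔭 : (1 : MvPolynomial (Fin (k + 1)) ℂ) ∉ 𝔭 := fun h =>
        h𝔭.ne_top ((Ideal.eq_top_iff_one _).2 h)
      have hsing : ∀ q ∈ CK.Vz 𝔭, (∃ W ∈ T, q ∈ W) ∨ k + 1 ≤ (YG.hessAt f q).rank + 2 :=
        fun q hq => h q (hq f hf𝔭) fun i => hq _ (hs i)
      by_cases hfin : (CK.Vz 𝔭).Finite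
      · refine ⟨(fun p => {p}) '' CK.Vz 𝔭, hfin.image _, ?_, 1, h1𝔭, fun q hq _ =>
          ⟨{q}, ⟨q, hq, rfl⟩, rfl⟩⟩
        rintro _ ⟨q, hq, rfl⟩
        refine ⟨isConstr_point q, ?_⟩
        rcases hsing q hq with ⟨W, hW, hqW⟩ | hr
        · exact (hTW W hW).2.mono (Set.singleton_subset_iff.2 hqW)
        · refine MonoAlong.of_point hf fun h1 h2 => SU.smcLoc_corank h1 h2 ?_
          rw [CK.hess_translate]
          exact hr
      · by_cases hex : ∃ q₀ ∈ CK.Vz 𝔭, k + 1 ≤ (YG.hessAt f q₀).rank + 2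
        · obtain ⟨q₀, hq₀, hr⟩ := hex
          obtain ⟨W, hWc, ⟨m, w, N, hWs⟩, δ, hδ, hW⟩ :=
            CK.exists_stratum h𝔭 hf𝔭 hs hfin hq₀ hr
          refine ⟨{W}, Set.finite_singleton W, ?_, δ, hδ, fun q hq hq0 => ⟨W, rfl, hW q hq hq0⟩⟩
          rintro _ rfl
          exact ⟨hWc, MonoAlong.of_sqhAlong hf hWs⟩
        · push Not at hex
          refine ⟨T, hT, hTW, 1, h1𝔭, fun q hq _ => ?_⟩
          rcases hsing q hq with hW | hr
          · exact hW
          · exact absurd hr (not_le.2 (hex q hq)))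
  refine SmcGlob.of_strataM hf h0 (hT₂.union (Set.finite_range (WJ f))) (fun p hp => ?_) ?_
  · by_cases hc : ∀ i, eval p (pderiv i f) = 0
    · obtain ⟨W, hW, hpW⟩ := hcov p (fun g hg => by
        have h1 : I ≤ RingHom.ker (eval p) := by
          rw [hI, Ideal.span_le]
          rintro _ (rfl | ⟨i, rfl⟩)
          · exact hp
          · exact hc i
        exact h1 hg)
      exact ⟨W, Or.inl hW, hpW⟩
    · obtain ⟨j, hj⟩ := exists_mem_WJ hp hc
      exact ⟨WJ f j, Or.inr ⟨j, rfl⟩, hj⟩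
  · rintro W (hW | ⟨j, rfl⟩)
    · exact hT₂W W hW
    · exact ⟨isConstr_WJ f j, MonoAlong.of_trivAlong hf (CQ.trivAlong_WJ f j)
        fun _ _ => SU.smcLoc_X 0⟩

end MPb07157
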