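import Pool.Agent.Lib.MP_b07157_agSF.Defs

/-!
# Singular points of corank at most two: basic facts
-/

noncomputable section

namespace MPb07157

open MvPolynomial

namespace CK

variable {n r : ℕ}

theorem loc_eq (q : Fin n → ℂ) (g : MvPolynomial (Fin n) ℂ) :
    loc q g = (translate q g : MvPowerSeries (Fin n) ℂ) := by
  unfold loc translate
  induction g using MvPolynomial.induction_on with
  | C c =>
    rw [aeval_C, aeval_C, MvPolynomial.algebraMap_eq, MvPolynomial.coe_C]
    rfl
  | add p q hp hq => rw [map_add, map_add, MvPolynomial.coe_add, hp, hq]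
  | mul_X p j hp =>
    rw [map_mul, map_mul, MvPolynomial.coe_mul, hp, aeval_X, aeval_X, MvPolynomial.coe_add,
      MvPolynomial.coe_X, MvPolynomial.coe_C]

theorem constantCoeff_loc (q : Fin n → ℂ) (g : MvPolynomial (Fin n) ℂ) :
    MvPowerSeries.constantCoeff (loc q g) = eval q g := by
  rw [loc_eq, ← MvPowerSeries.coeff_zero_eq_constantCoeff_apply, MvPolynomial.coeff_coe,
    MB.eval_eq_constantCoeff, MvPolynomial.constantCoeff_eq]

theorem pderiv_loc (q : Fin n → ℂ) (i : Fin n) (g : MvPolynomial (Fin n) ℂ) :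
    MvPowerSeries.pderiv ℂ i (loc q g) = loc q (pderiv i g) := by
  rw [loc_eq, loc_eq, MvPowerSeries.pderiv_coe, pderiv_translate]

theorem isUnit_loc {q : Fin n → ℂ} {g : MvPolynomial (Fin n) ℂ} :
    IsUnit (loc q g) ↔ eval q g ≠ 0 := by
  rw [MvPowerSeries.isUnit_iff_constantCoeff, constantCoeff_loc, isUnit_iff_ne_zero]

theorem sum_der {A : Type*} [CommRing A] [Algebra ℂ A] {ι : Type*} (s : Finset ι)
    (D : ι → Derivation ℂ A A) (x : A) : (∑ i ∈ s, D i) x = ∑ i ∈ s, D i x := by
  classical
  induction s using Finset.induction_on with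
  | empty => rw [Finset.sum_empty, Finset.sum_empty, Derivation.zero_apply]
  | insert i s hi ih => rw [Finset.sum_insert hi, Finset.sum_insert hi, Derivation.add_apply, ih]

/-- Linear relations with power series coefficients. -/
theorem exists_local (q : Fin n → ℂ) {k : ℕ} (g : Fin k → MvPolynomial (Fin n) ℂ)
    (α : MvPolynomial (Fin n) ℂ) (c : Fin k → MvPowerSeries (Fin n) ℂ)
    (h : loc q α = ∑ i, c i * loc q (g i)) :
    ∃ (s : MvPolynomial (Fin n) ℂ) (b : Fin k → MvPolynomial (Fin n) ℂ),
      eval q s ≠ 0 ∧ s * α = ∑ i, b i * g i := by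
  simp only [loc_eq] at h
  obtain ⟨s, b, hs, hsb⟩ := YN.exists_local (fun i => translate q (g i)) (translate q α) c h
  refine ⟨translate (fun i => -q i) s, fun i => translate (fun i => -q i) (b i), ?_, ?_⟩
  · rw [eval_translate_neg]
    exact hs
  · have h1 := congrArg (translate (fun i => -q i)) hsb
    have hm : ∀ x y : MvPolynomial (Fin n) ℂ, translate (fun i => -q i) (x * y) =
        translate (fun i => -q i) x * translate (fun i => -q i) y := fun x y => by
      unfold translate
      rw [map_mul]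
    have hs : ∀ g : Fin k → MvPolynomial (Fin n) ℂ, translate (fun i => -q i) (∑ i, g i) =
        ∑ i, translate (fun i => -q i) (g i) := fun g => by
      unfold translate
      rw [map_sum]
    rw [hm, translate_neg_translate, hs] at h1
    rw [h1]
    refine Finset.sum_congr rfl fun i _ => ?_
    rw [hm, translate_neg_translate]

/-- Membership in an ideal with power series coefficients. -/
theorem exists_mem (q : Fin n → ℂ) {𝔞 : Ideal (MvPolynomial (Fin n) ℂ)}
    {α : MvPolynomial (Fin n) ℂ} (h : loc q α ∈ 𝔞.map (loc q)) :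
    ∃ s : MvPolynomial (Fin n) ℂ, eval q s ≠ 0 ∧ s * α ∈ 𝔞 := by
  classical
  obtain ⟨G, hG⟩ : 𝔞.FG := IsNoetherian.noetherian 𝔞
  rw [← hG, Ideal.map_span] at h
  have e1 : ((loc q : MvPolynomial (Fin n) ℂ → MvPowerSeries (Fin n) ℂ) '' (G : Set _)) =
      Set.range fun i : Fin G.card => loc q ((G.equivFin.symm i : G) : MvPolynomial (Fin n) ℂ) := by
    ext x
    constructor
    · rintro ⟨g, hg, rfl⟩
      exact ⟨G.equivFin ⟨g, hg⟩, by simp⟩
    · rintro ⟨i, rfl⟩
      exact ⟨_, (G.equivFin.symm i).2, rfl⟩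
  have e2 : Ideal.span ((loc q : MvPolynomial (Fin n) ℂ → MvPowerSeries (Fin n) ℂ) ''
      (G : Set _)) = Ideal.span (Set.range fun i : Fin G.card =>
        loc q ((G.equivFin.symm i : G) : MvPolynomial (Fin n) ℂ)) := by rw [e1]
  have h2 : loc q α ∈ Ideal.span (Set.range fun i : Fin G.card =>
        loc q ((G.equivFin.symm i : G) : MvPolynomial (Fin n) ℂ)) := by
    rw [← e2]
    exact h
  obtain ⟨c, hc⟩ := (Ideal.mem_span_range_iff_exists_fun).1 h2
  obtain ⟨s, b, hs, hsb⟩ := exists_local q _ α c hc.symm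
  refine ⟨s, hs, ?_⟩
  rw [hsb, ← hG]
  exact Ideal.sum_mem _ fun i _ => Ideal.mul_mem_left _ _
    (Ideal.subset_span (G.equivFin.symm i).2)

/-- The extension of a derivation to the power series at `q`. -/
theorem exists_ext (D : Derivation ℂ (MvPolynomial (Fin n) ℂ) (MvPolynomial (Fin n) ℂ))
    (q : Fin n → ℂ) : ∃ D' : Derivation ℂ (MvPowerSeries (Fin n) ℂ) (MvPowerSeries (Fin n) ℂ),
      ∀ g, D' (loc q g) = loc q (D g) := by
  classical
  refine ⟨∑ l, loc q (D (X l)) • MvPowerSeries.pderiv ℂ l, fun g => ?_⟩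
  have h1 : D g = ∑ l, D (X l) * pderiv l g := by
    have h2 : D = ∑ l, D (X l) • (pderiv l : Derivation ℂ (MvPolynomial (Fin n) ℂ) _) := by
      refine MvPolynomial.derivation_ext fun i => ?_
      rw [sum_der, Finset.sum_eq_single i]
      · rw [Derivation.smul_apply, pderiv_X_self, smul_eq_mul, mul_one]
      · intro l _ hl
        rw [Derivation.smul_apply, pderiv_X_of_ne (Ne.symm hl), smul_zero]
      · exact fun h => absurd (Finset.mem_univ i) h
    conv_lhs => rw [h2]
    rw [sum_der]
    rfl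
  rw [sum_der, h1, map_sum]
  refine Finset.sum_congr rfl fun l _ => ?_
  rw [Derivation.smul_apply, pderiv_loc, smul_eq_mul, map_mul]

theorem DJ_apply (f : MvPolynomial (Fin n) ℂ) (J : Fin r → Fin n) (c : Fin n)
    (g : MvPolynomial (Fin n) ℂ) :
    DJ f J c g = (Hm f J).det * pderiv c g -
      ∑ i, ∑ j, (Hm f J).adjugate j i * pderiv c (pderiv (J i) f) * pderiv (J j) g := by
  unfold DJ
  rw [Derivation.sub_apply, Derivation.smul_apply, smul_eq_mul, sum_der]
  congr 1
  refine Finset.sum_congr rfl fun i _ => ?_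
  rw [sum_der]
  rfl

theorem pderiv_pderiv_comm (i j : Fin n) (g : MvPolynomial (Fin n) ℂ) :
    pderiv i (pderiv j g) = pderiv j (pderiv i g) := by
  ext v
  rw [coeff_pderiv, coeff_pderiv, coeff_pderiv, coeff_pderiv, add_right_comm]
  by_cases h : i = j
  · subst h
    ring
  · rw [Finsupp.add_apply, Finsupp.add_apply, Finsupp.single_eq_of_ne (Ne.symm h),
      Finsupp.single_eq_of_ne h]
    ring

theorem DJ_u (f : MvPolynomial (Fin n) ℂ) (J : Fin r → Fin n) (c : Fin n) (k : Fin r) :
    DJ f J c (pderiv (J k) f) = 0 := by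
  classical
  rw [DJ_apply]
  have h1 : ∀ i, ∑ j, (Hm f J).adjugate j i * pderiv c (pderiv (J i) f) *
      pderiv (J j) (pderiv (J k) f) = pderiv c (pderiv (J i) f) *
        ∑ j, Hm f J j k * (Hm f J).adjugate j i := by
    intro i
    rw [Finset.mul_sum]
    refine Finset.sum_congr rfl fun j _ => ?_
    rw [show Hm f J j k = pderiv (J j) (pderiv (J k) f) from rfl]
    ring
  have hsymm : ∀ j k, Hm f J j k = Hm f J k j := by
    intro j k
    show pderiv (J j) (pderiv (J k) f) = pderiv (J k) (pderiv (J j) f)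
    exact pderiv_pderiv_comm _ _ _
  have h2 : ∀ i, ∑ j, Hm f J j k * (Hm f J).adjugate j i =
      if k = i then (Hm f J).det else 0 := by
    intro i
    have h3 := congrFun (congrFun (Matrix.mul_adjugate (Hm f J)) k) i
    rw [Matrix.mul_apply, Matrix.smul_apply, Matrix.one_apply, smul_eq_mul] at h3
    simp only [hsymm _ k]
    rw [h3]
    split_ifs
    · rw [mul_one]
    · rw [mul_zero]
  simp only [h1, h2, mul_ite, mul_zero]
  rw [Finset.sum_ite_eq Finset.univ k, if_pos (Finset.mem_univ _)]
  ring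

end CK

end MPb07157
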