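import Pool.Agent.Lib.MP_b07157_agSF.Base
import Pool.Agent.Lib.MP_b07157_agU.Split1

/-!
# Ideals which are stable under the derivations
-/

noncomputable section

namespace MPb07157

open MvPolynomial

namespace CK

variable {n r : ℕ}

namespace CaseA

/-- Power series without the monomials off `S` are in the ideal of the variables in `S`. -/
theorem mem_span_X (S : Finset (Fin n)) : ∀ h : MvPowerSeries (Fin n) ℂ,
    (∀ v : Fin n →₀ ℕ, (∀ i ∈ S, v i = 0) → MvPowerSeries.coeff v h = 0) →
    h ∈ Ideal.span ((fun i => (MvPowerSeries.X i : MvPowerSeries (Fin n) ℂ)) '' (S : Set (Fin n))) := by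
  classical
  induction S using Finset.induction_on with
  | empty =>
    intro h hh
    have : h = 0 := by
      ext v
      rw [hh v (fun i hi => absurd hi (Finset.notMem_empty i)), map_zero]
    rw [this]
    exact Ideal.zero_mem _
  | insert s S hs ih =>
    intro h hh
    let h0 : MvPowerSeries (Fin n) ℂ := fun v => if v s = 0 then 0 else MvPowerSeries.coeff v h
    have c0 : ∀ v, MvPowerSeries.coeff v h0 = if v s = 0 then 0 else MvPowerSeries.coeff v h :=
      fun v => rfl
    have h1 : MvPowerSeries.X s ∣ h0 := by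
      rw [MvPowerSeries.X_dvd_iff]
      intro v hv
      rw [c0, if_pos hv]
    have h2 : h - h0 ∈ Ideal.span ((fun i => (MvPowerSeries.X i : MvPowerSeries (Fin n) ℂ)) ''
        (S : Set (Fin n))) := by
      refine ih _ fun v hv => ?_
      rw [map_sub, c0]
      by_cases h3 : v s = 0
      · rw [if_pos h3, hh v (fun i hi => ?_), sub_zero]
        rcases Finset.mem_insert.1 hi with h4 | h4
        · rw [h4, h3]
        · exact hv i h4
      · rw [if_neg h3, sub_self]
    have h3 : h0 ∈ Ideal.span ((fun i => (MvPowerSeries.X i : MvPowerSeries (Fin n) ℂ)) ''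
        ((insert s S : Finset (Fin n)) : Set (Fin n))) := by
      obtain ⟨g, hg⟩ := h1
      rw [hg]
      exact Ideal.mul_mem_right _ _ (Ideal.subset_span ⟨s, by simp, rfl⟩)
    have h4 : h = (h - h0) + h0 := (sub_add_cancel h h0).symm
    rw [h4]
    refine Ideal.add_mem _ (Ideal.span_mono (Set.image_mono ?_) h2) h3
    intro i hi
    simp only [Finset.coe_insert, Set.mem_insert_iff]
    exact Or.inr hi

/-- If a proper ideal is stable under the `∂_c`, `c ∉ S`, then its elements have no monomials
off `S`. -/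
theorem coeff_eq_zero (S : Finset (Fin n)) (Q : Set (MvPowerSeries (Fin n) ℂ))
    (hQ : ∀ h ∈ Q, MvPowerSeries.constantCoeff h = 0)
    (hd : ∀ c ∉ S, ∀ h ∈ Q, MvPowerSeries.pderiv ℂ c h ∈ Q) :
    ∀ (N : ℕ) (v : Fin n →₀ ℕ), v.degree = N → (∀ i ∈ S, v i = 0) →
      ∀ h ∈ Q, MvPowerSeries.coeff v h = 0 := by
  intro N
  induction N with
  | zero =>
    intro v hv _ h hh
    rw [Finsupp.degree_eq_zero_iff] at hv
    rw [hv, MvPowerSeries.coeff_zero_eq_constantCoeff_apply]
    exact hQ h hh
  | succ N ih =>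
    intro v hv hvS h hh
    obtain ⟨c, hc⟩ : ∃ c, v c ≠ 0 := by
      by_contra hcon
      push Not at hcon
      have : v = 0 := Finsupp.ext hcon
      rw [this] at hv
      simp at hv
    have hcS : c ∉ S := fun h1 => hc (hvS c h1)
    have hle : Finsupp.single c 1 ≤ v := by
      rw [Finsupp.single_le_iff]
      omega
    have e1 : v - Finsupp.single c 1 + Finsupp.single c 1 = v := tsub_add_cancel_of_le hle
    have h1 := ih (v - Finsupp.single c 1) (by
      have := congrArg Finsupp.degree e1
      rw [map_add, Finsupp.degree_single] at this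
      omega) (fun i hi => by
        rw [Finsupp.tsub_apply, hvS i hi, Nat.zero_sub]) _ (hd c hcS h hh)
    rw [MvPowerSeries.coeff_pderiv, e1] at h1
    rcases mul_eq_zero.1 h1 with h2 | h2
    · exact h2
    · exact absurd h2 (Nat.cast_add_one_ne_zero _)

/-- The coordinates. -/
def co (f : MvPolynomial (Fin n) ℂ) (J : Fin r → Fin n) (q : Fin n → ℂ) (k : Fin n) :
    MvPowerSeries (Fin n) ℂ :=
  open Classical in if k ∈ Set.range J then loc q (pderiv k f) else MvPowerSeries.X k

theorem coeff_single_loc (q : Fin n → ℂ) (g : MvPolynomial (Fin n) ℂ) (j : Fin n) :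
    MvPowerSeries.coeff (Finsupp.single j 1) (loc q g) = eval q (pderiv j g) := by
  have h1 := MvPowerSeries.coeff_pderiv (i := j) (loc q g) 0
  rw [pderiv_loc, MvPowerSeries.coeff_zero_eq_constantCoeff_apply, constantCoeff_loc, zero_add,
    Finsupp.zero_apply, Nat.cast_zero, zero_add, mul_one] at h1
  exact h1.symm

theorem det_ne {f : MvPolynomial (Fin n) ℂ} {J : Fin r → Fin n} (hJ : Function.Injective J)
    {q : Fin n → ℂ} (hδ : eval q (Hm f J).det ≠ 0) :
    (Matrix.of fun i j => MvPowerSeries.coeff (Finsupp.single j 1) (co f J q i)).det ≠ 0 := by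
  classical
  intro h0
  obtain ⟨v, hv, hv0⟩ := Matrix.exists_mulVec_eq_zero_iff.2 h0
  have hoff : ∀ k, k ∉ Set.range J → v k = 0 := by
    intro k hk
    have h1 := congrFun hv0 k
    rw [Matrix.mulVec, dotProduct] at h1
    simp only [Matrix.of_apply, co, if_neg hk, Pi.zero_apply] at h1
    rw [Finset.sum_eq_single k] at h1
    · rw [MvPowerSeries.coeff_X, if_pos rfl, one_mul] at h1
      exact h1
    · intro j _ hj
      rw [MvPowerSeries.coeff_X, if_neg, zero_mul]
      intro h2
      exact hj (Finsupp.single_left_injective one_ne_zero h2)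
    · intro h2
      exact absurd (Finset.mem_univ k) h2
  have hon : Matrix.mulVec ((Hm f J).map (eval q)) (fun i => v (J i)) = 0 := by
    funext i
    have h1 := congrFun hv0 (J i)
    rw [Matrix.mulVec, dotProduct] at h1
    have hin : J i ∈ Set.range J := ⟨i, rfl⟩
    simp only [Matrix.of_apply, co, if_pos hin, Pi.zero_apply, coeff_single_loc] at h1
    rw [Matrix.mulVec, dotProduct]
    rw [Pi.zero_apply]
    rw [← h1]
    have h2 : ∑ x : Fin n, (eval q) ((pderiv x) ((pderiv (J i)) f)) * v x =
        ∑ x ∈ Finset.univ.image J, (eval q) ((pderiv x) ((pderiv (J i)) f)) * v x := by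
      symm
      refine Finset.sum_subset (Finset.subset_univ _) fun x _ hx => ?_
      rw [hoff x, mul_zero]
      rintro ⟨j, rfl⟩
      exact hx (Finset.mem_image_of_mem _ (Finset.mem_univ j))
    rw [h2, Finset.sum_image fun a _ b _ hab => hJ hab]
    refine Finset.sum_congr rfl fun j _ => ?_
    rw [Matrix.map_apply, Hm, Matrix.of_apply, pderiv_pderiv_comm]
  have hdet : ((Hm f J).map (eval q)).det ≠ 0 := by
    have h1 : ((Hm f J).map (eval q)).det = eval q (Hm f J).det := by
      rw [← RingHom.mapMatrix_apply, ← RingHom.map_det]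
    rw [h1]
    exact hδ
  have hz : (fun i => v (J i)) = 0 := by
    by_contra hne
    exact hdet (Matrix.exists_mulVec_eq_zero_iff.1 ⟨_, hne, hon⟩)
  apply hv
  funext k
  by_cases hk : k ∈ Set.range J
  · obtain ⟨i, rfl⟩ := hk
    exact congrFun hz i
  · exact hoff k hk

/-- The extension of a derivation, explicitly. -/
def ex (D : Derivation ℂ (MvPolynomial (Fin n) ℂ) (MvPolynomial (Fin n) ℂ)) (q : Fin n → ℂ) :
    Derivation ℂ (MvPowerSeries (Fin n) ℂ) (MvPowerSeries (Fin n) ℂ) :=
  ∑ l, loc q (D (X l)) • MvPowerSeries.pderiv ℂ l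

theorem ex_apply (D : Derivation ℂ (MvPolynomial (Fin n) ℂ) (MvPolynomial (Fin n) ℂ))
    (q : Fin n → ℂ) (h : MvPowerSeries (Fin n) ℂ) :
    ex D q h = ∑ l, loc q (D (X l)) * MvPowerSeries.pderiv ℂ l h := by
  unfold ex
  rw [sum_der]
  rfl

theorem ex_loc (D : Derivation ℂ (MvPolynomial (Fin n) ℂ) (MvPolynomial (Fin n) ℂ))
    (q : Fin n → ℂ) (g : MvPolynomial (Fin n) ℂ) : ex D q (loc q g) = loc q (D g) := by
  classical
  have h1 : D g = ∑ l, D (X l) * pderiv l g := by
    have h2 : D = ∑ l, D (X l) • (pderiv l : Derivation ℂ (MvPolynomial (Fin n) ℂ) _) := by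
      refine MvPolynomial.derivation_ext fun i => ?_
      rw [sum_der, Finset.sum_eq_single i]
      · rw [Derivation.smul_apply, pderiv_X_self, smul_eq_mul, mul_one]
      · intro l _ hl
        rw [Derivation.smul_apply, pderiv_X_of_ne (Ne.symm hl), smul_zero]
      · exact fun h => absurd (Finset.mem_univ i) h
    conv_lhs => rw [h2]
    rw [sum_der]
    rfl
  rw [ex_apply, h1, map_sum]
  refine Finset.sum_congr rfl fun l _ => ?_
  rw [pderiv_loc, map_mul]

/-- The chain rule for a derivation. -/
theorem ex_hom (D : Derivation ℂ (MvPolynomial (Fin n) ℂ) (MvPolynomial (Fin n) ℂ))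
    (q : Fin n → ℂ) (φ : MvPowerSeries (Fin n) ℂ →ₐ[ℂ] MvPowerSeries (Fin n) ℂ)
    (h : MvPowerSeries (Fin n) ℂ) :
    ex D q (φ h) = ∑ j, ex D q (φ (MvPowerSeries.X j)) * φ (MvPowerSeries.pderiv ℂ j h) := by
  rw [ex_apply]
  simp only [ex_apply, Spl.pderiv_hom φ _ h, Finset.mul_sum, Finset.sum_mul]
  rw [Finset.sum_comm]
  refine Finset.sum_congr rfl fun j _ => Finset.sum_congr rfl fun l _ => ?_
  ring

/-- `D_c x_{c'}` for `c' ∉ J`. -/
theorem DJ_X (f : MvPolynomial (Fin n) ℂ) (J : Fin r → Fin n) (c c' : Fin n)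
    (hc : c' ∉ Set.range J) : DJ f J c (X c') = if c = c' then (Hm f J).det else 0 := by
  classical
  rw [DJ_apply]
  have h1 : ∑ i, ∑ j, (Hm f J).adjugate j i * pderiv c (pderiv (J i) f) *
      pderiv (J j) (X c' : MvPolynomial (Fin n) ℂ) = 0 := by
    refine Finset.sum_eq_zero fun i _ => Finset.sum_eq_zero fun j _ => ?_
    rw [pderiv_X_of_ne, mul_zero]
    intro h2
    exact hc ⟨j, h2.symm⟩
  rw [h1, sub_zero]
  split_ifs with h2
  · rw [h2, pderiv_X_self, mul_one]
  · rw [pderiv_X_of_ne (Ne.symm h2), mul_zero]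

end CaseA

open CaseA in
/-- Let `𝔭` be an ideal which is stable under the `DJ f J c`, `q` a zero of `𝔭` at which the
Hessian minor does not vanish, `u_i = ∂_{J i} f ∈ 𝔭`. Then `𝔭` is in the ideal generated by the `u_i`
in the ring of power series at `q`. Proof: the `u_i` together with the `x_c - q_c`, `c ∉ J`, are
coordinates at `q` (block triangular Jacobian determinant `= ± det H(q)`), so there is an automorphism
`E` with `E(X_{J i}) = loc q (u_i)`, `E(X_c) = loc q (x_c - q_c) = X_c` for `c ∉ J` (index the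
coordinates by `Fin n` itself; `IFT.exists_equiv`). The derivation `D_c` (`exists_ext`, `DJ_u`,
`DJ_apply`) becomes `E⁻¹(δ) ∂_c`, `δ = det H`: it kills the `X_{J i}`, and `D_c x_{c'} = δ` if `c' = c`
and `0` if `c' ∉ J`, `c' ≠ c` (a continuous derivation, or: the difference with `δ ∂_c` kills all
`X_i`, so all polynomials, and maps `m^N` to `m^(N-1)`). The ideal `Q = E⁻¹(𝔭.map (loc q))` is proper
and stable under the `∂_c`, `c ∉ J` (`δ` is a unit), so by induction on the degree the
coefficients of the monomials in the `X_c`, `c ∉ J`, of all elements of `Q` are `0`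
(`coeff_ν(g) ν_c = coeff_{ν - e_c}(∂_c g)`), and `Q` is in the ideal of the `X_{J i}`. -/
theorem loc_mem_of_stable {f : MvPolynomial (Fin n) ℂ} {J : Fin r → Fin n}
    (hJ : Function.Injective J) {𝔭 : Ideal (MvPolynomial (Fin n) ℂ)} {q : Fin n → ℂ}
    (hq : q ∈ Vz 𝔭) (hδ : eval q (Hm f J).det ≠ 0) (hu : ∀ i, pderiv (J i) f ∈ 𝔭)
    (h : ∀ c, ∀ g ∈ 𝔭, DJ f J c g ∈ 𝔭) {g : MvPolynomial (Fin n) ℂ} (hg : g ∈ 𝔭) :
    loc q g ∈ Ideal.span (Set.range fun i => loc q (pderiv (J i) f)) := by
  classical
  set P : Ideal (MvPowerSeries (Fin n) ℂ) := 𝔭.map (loc q) with hP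
  have hPc : ∀ x ∈ P, MvPowerSeries.constantCoeff x = 0 := by
    intro x hx
    have h1 : P ≤ RingHom.ker (MvPowerSeries.constantCoeff (σ := Fin n) (R := ℂ)) := by
      rw [hP, Ideal.map_le_iff_le_comap]
      intro y hy
      rw [Ideal.mem_comap, RingHom.mem_ker]
      show MvPowerSeries.constantCoeff (loc q y) = 0
      rw [constantCoeff_loc]
      exact hq y hy
    exact h1 hx
  -- the automorphism
  obtain ⟨E, hE⟩ := IFT.exists_equiv (a := co f J q) (by
    intro k
    unfold co
    split_ifs with hk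
    · obtain ⟨i, rfl⟩ := hk
      rw [constantCoeff_loc]
      exact hq _ (hu i)
    · exact MvPowerSeries.constantCoeff_X k) (det_ne hJ hδ)
  have hEX : ∀ k, E (MvPowerSeries.X k) = co f J q k := by
    intro k
    have h1 := hE (X k)
    rw [MvPolynomial.coe_X, aeval_X] at h1
    exact h1
  -- the derivations
  have hder : ∀ c, c ∉ Set.range J → ∀ x : MvPowerSeries (Fin n) ℂ,
      ex (DJ f J c) q (E x) = loc q (Hm f J).det * E (MvPowerSeries.pderiv ℂ c x) := by
    intro c hc x
    have h1 := ex_hom (DJ f J c) q (E : MvPowerSeries (Fin n) ℂ →ₐ[ℂ] MvPowerSeries (Fin n) ℂ) x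
    have h2 : ∀ j, ex (DJ f J c) q (E (MvPowerSeries.X j)) =
        if c = j then loc q (Hm f J).det else 0 := by
      intro j
      rw [hEX]
      unfold co
      by_cases hj : j ∈ Set.range J
      · rw [if_pos hj]
        obtain ⟨i, rfl⟩ := hj
        rw [ex_loc, DJ_u, map_zero, if_neg]
        intro h3
        exact hc ⟨i, h3.symm⟩
      · rw [if_neg hj]
        have h3 : (MvPowerSeries.X j : MvPowerSeries (Fin n) ℂ) = loc q (X j - C (q j)) := by
          unfold loc
          rw [map_sub, aeval_X, aeval_C]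
          show _ = MvPowerSeries.X j + MvPowerSeries.C (q j) - MvPowerSeries.C (q j)
          rw [add_sub_cancel_right]
        rw [h3, ex_loc, map_sub, DJ_X f J c j hj]
        have h4 : DJ f J c (C (q j)) = 0 := by
          rw [← MvPolynomial.algebraMap_eq]
          exact Derivation.map_algebraMap _ _
        rw [h4, sub_zero]
        split_ifs
        · rfl
        · rw [map_zero]
    have h3 : ex (DJ f J c) q (E x) = ∑ j, (if c = j then loc q (Hm f J).det else 0) *
        E (MvPowerSeries.pderiv ℂ j x) := by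
      refine h1.trans (Finset.sum_congr rfl fun j _ => ?_)
      show ex (DJ f J c) q (E (MvPowerSeries.X j)) * E (MvPowerSeries.pderiv ℂ j x) = _
      rw [h2]
    rw [h3, Finset.sum_eq_single c]
    · rw [if_pos rfl]
    · intro j _ hj
      rw [if_neg (Ne.symm hj), zero_mul]
    · intro h4
      exact absurd (Finset.mem_univ c) h4
  have hstab : ∀ c, ∀ x ∈ P, ex (DJ f J c) q x ∈ P := by
    intro c x hx
    rw [hP, Ideal.map] at hx
    induction hx using Submodule.span_induction with
    | mem x hx =>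
      obtain ⟨y, hy, rfl⟩ := hx
      show ex (DJ f J c) q (loc q y) ∈ P
      rw [ex_loc]
      exact Ideal.mem_map_of_mem _ (h c y hy)
    | zero =>
      rw [map_zero]
      exact P.zero_mem
    | add x y _ _ hx hy =>
      rw [map_add]
      exact P.add_mem hx hy
    | smul a x hx hx' =>
      rw [smul_eq_mul, Derivation.leibniz, smul_eq_mul, smul_eq_mul]
      exact P.add_mem (P.mul_mem_left _ hx') (P.mul_mem_right _ hx)
  have hunit : IsUnit (loc q (Hm f J).det) := isUnit_loc.2 hδ
  set S : Finset (Fin n) := Finset.univ.image J with hS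
  have hSJ : ∀ c, c ∉ S → c ∉ Set.range J := by
    rintro c hc ⟨i, rfl⟩
    exact hc (Finset.mem_image_of_mem _ (Finset.mem_univ i))
  have hcz := coeff_eq_zero S {x | E x ∈ P} (fun x hx => by
      have h1 : ¬ IsUnit (E x) := by
        rw [MvPowerSeries.isUnit_iff_constantCoeff, hPc _ hx]
        exact not_isUnit_zero
      have h2 : ¬ IsUnit x := fun h3 => h1 (h3.map E)
      rw [MvPowerSeries.isUnit_iff_constantCoeff, isUnit_iff_ne_zero, not_not] at h2
      exact h2) (fun c hc x hx => by
      have h1 := hstab c _ hx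
      rw [hder c (hSJ c hc) x] at h1
      show E (MvPowerSeries.pderiv ℂ c x) ∈ P
      exact (Ideal.unit_mul_mem_iff_mem P hunit).1 h1)
  have hgP : loc q g ∈ P := Ideal.mem_map_of_mem _ hg
  have hx : E.symm (loc q g) ∈ Ideal.span ((fun i => (MvPowerSeries.X i : MvPowerSeries (Fin n) ℂ)) ''
      (S : Set (Fin n))) := by
    refine mem_span_X S _ fun v hv => hcz _ v rfl hv _ ?_
    show E (E.symm (loc q g)) ∈ P
    rw [AlgEquiv.apply_symm_apply]
    exact hgP
  have h1 : ∀ x ∈ Ideal.span ((fun i => (MvPowerSeries.X i : MvPowerSeries (Fin n) ℂ)) ''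
      (S : Set (Fin n))), E x ∈ Ideal.span (Set.range fun i => loc q (pderiv (J i) f)) := by
    intro x hx
    induction hx using Submodule.span_induction with
    | mem x hx =>
      obtain ⟨k, hk, rfl⟩ := hx
      obtain ⟨i, -, rfl⟩ := Finset.mem_image.1 hk
      show E (MvPowerSeries.X (J i)) ∈ _
      rw [hEX]
      unfold co
      rw [if_pos ⟨i, rfl⟩]
      exact Ideal.subset_span ⟨i, rfl⟩
    | zero =>
      rw [map_zero]
      exact Ideal.zero_mem _
    | add x y _ _ hx hy =>
      rw [map_add]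
      exact Ideal.add_mem _ hx hy
    | smul a x _ hx =>
      rw [smul_eq_mul, map_mul]
      exact Ideal.mul_mem_left _ _ hx
  have h2 := h1 _ hx
  rw [AlgEquiv.apply_symm_apply] at h2
  exact h2

end CK

end MPb07157
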