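import Pool.Agent.Lib.MP_b07157_agSF.Base

/-!
# Intersections of ideals of power series
-/

noncomputable section

namespace MPb07157

open MvPolynomial

namespace CK

/-- The intersection over `m` of the ideals `U + (v^m)` in the ring of power series is `U`, if `U` is
generated by the expansions of polynomials `u_i` which, together with `v`, have independent
differentials at `q`, where they vanish. Proof: complete `u_1, …, u_k, v` to a system of
coordinates at `q` (linear forms), use the formal inverse function theorem (`IFT.exists_equiv`,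
`agM/IFT.lean`), and for power series in coordinates look at the coefficients: an element of
`(X_1, …, X_k) + (X_v^m)` has no terms `X^ν` with `ν_i = 0` for `i ≤ k` and `ν_v < m`. -/
theorem mem_of_forall_pow {n k : ℕ} {q : Fin n → ℂ} {u : Fin k → MvPolynomial (Fin n) ℂ}
    {v : MvPolynomial (Fin n) ℂ} (hu : ∀ i, eval q (u i) = 0) (hv : eval q v = 0)
    (hli : LinearIndependent ℂ fun (i : Fin (k + 1)) (l : Fin n) =>
      eval q (pderiv l ((Fin.snoc u v : Fin (k + 1) → MvPolynomial (Fin n) ℂ) i)))
    {F : MvPowerSeries (Fin n) ℂ}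
    (h : ∀ m, F ∈ Ideal.span (Set.range fun i => loc q (u i)) ⊔ Ideal.span {loc q v ^ m}) :
    F ∈ Ideal.span (Set.range fun i => loc q (u i)) := by
  classical
  obtain ⟨R, hR⟩ : ∃ I : Ideal (MvPowerSeries (Fin n) ℂ),
      I = Ideal.span (Set.range fun i => loc q (u i)) := ⟨_, rfl⟩
  rw [← hR] at h ⊢
  have hJ : Ideal.span {loc q v} ≠ ⊤ := by
    rw [Ne, Ideal.span_singleton_eq_top, isUnit_loc, not_not]
    exact hv
  have hK := Ideal.iInf_pow_smul_eq_bot_of_isLocalRing
    (M := MvPowerSeries (Fin n) ℂ ⧸ R) (Ideal.span {loc q v}) hJ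
  have hx : (Submodule.Quotient.mk F : MvPowerSeries (Fin n) ℂ ⧸ R) ∈
      (⨅ i : ℕ, Ideal.span {loc q v} ^ i • ⊤ :
        Submodule (MvPowerSeries (Fin n) ℂ) (MvPowerSeries (Fin n) ℂ ⧸ R)) := by
    rw [Submodule.mem_iInf]
    intro m
    obtain ⟨y, hy, z, hz, hyz⟩ := Submodule.mem_sup.1 (h m)
    have h4 : (Submodule.Quotient.mk F : MvPowerSeries (Fin n) ℂ ⧸ R) =
        z • (Submodule.Quotient.mk (1 : MvPowerSeries (Fin n) ℂ) :
          MvPowerSeries (Fin n) ℂ ⧸ R) := by
      rw [← Submodule.Quotient.mk_smul, smul_eq_mul, mul_one, ← sub_eq_zero,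
        ← Submodule.Quotient.mk_sub, Submodule.Quotient.mk_eq_zero, ← hyz, add_sub_cancel_right]
      exact hy
    rw [h4]
    refine Submodule.smul_mem_smul ?_ Submodule.mem_top
    rw [Ideal.span_singleton_pow]
    exact hz
  rw [hK, Submodule.mem_bot, Submodule.Quotient.mk_eq_zero] at hx
  exact hx

end CK

end MPb07157
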