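import Pool.Agent.Lib.MP_b07157_agSD.Sqh
import Pool.Agent.Lib.MP_b07157_agYN.Krull
import Pool.Agent.Lib.MP_b07157_agM.IFT
import Pool.Agent.Lib.MP_b07157_agM.TDefs
import Pool.Agent.Lib.MP_b07157_agSC.Cover

/-!
# Singular points of corank at most two: definitions
-/

noncomputable section

namespace MPb07157

open MvPolynomial

namespace CK

variable {n r : ℕ}

/-- The Taylor expansion at `q`. -/
def loc (q : Fin n → ℂ) : MvPolynomial (Fin n) ℂ →ₐ[ℂ] MvPowerSeries (Fin n) ℂ :=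
  aeval fun i => MvPowerSeries.X i + MvPowerSeries.C (q i)

/-- The Hessian minor with the rows and columns `J`. -/
def Hm (f : MvPolynomial (Fin n) ℂ) (J : Fin r → Fin n) :
    Matrix (Fin r) (Fin r) (MvPolynomial (Fin n) ℂ) :=
  Matrix.of fun i j => pderiv (J i) (pderiv (J j) f)

/-- The derivation `det(H) ∂_c - ∑_{i,j} adj(H)_{ji} (∂_c ∂_{J i} f) ∂_{J j}`, which kills the
`∂_{J k} f`. -/
def DJ (f : MvPolynomial (Fin n) ℂ) (J : Fin r → Fin n) (c : Fin n) :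
    Derivation ℂ (MvPolynomial (Fin n) ℂ) (MvPolynomial (Fin n) ℂ) :=
  (Hm f J).det • pderiv c -
    ∑ i, ∑ j, ((Hm f J).adjugate j i * pderiv c (pderiv (J i) f)) • pderiv (J j)

/-- The `j`-th derivative of `f` along `DJ f J c`. -/
def Df (f : MvPolynomial (Fin n) ℂ) (J : Fin r → Fin n) (c : Fin n) (j : ℕ) :
    MvPolynomial (Fin n) ℂ := (DJ f J c)^[j] f

/-- The stratum. -/
def WA (f : MvPolynomial (Fin n) ℂ) (J : Fin r → Fin n) (c : Fin n) (m : ℕ)
    (a : MvPolynomial (Fin n) ℂ) : Set (Fin n → ℂ) :=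
  {p | (∀ i ∈ (Finset.univ : Finset (Fin n)), eval p (pderiv i f) = 0) ∧
    (∀ j ∈ Finset.range m, eval p (Df f J c j) = 0) ∧ eval p a ≠ 0 ∧
    eval p (Hm f J).det ≠ 0 ∧ eval p (Df f J c m) ≠ 0}

/-- The zeros of an ideal. -/
def Vz (𝔭 : Ideal (MvPolynomial (Fin n) ℂ)) : Set (Fin n → ℂ) := {p | ∀ g ∈ 𝔭, eval p g = 0}

end CK

end MPb07157
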