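import Pool.Agent.Lib.MP_b07157_agSF.Base

/-!
# Independent differentials
-/

noncomputable section

namespace MPb07157

open MvPolynomial

namespace CK

variable {n r : ℕ}

/-- A derivation of the polynomial ring at a point. -/
theorem eval_der (D : Derivation ℂ (MvPolynomial (Fin n) ℂ) (MvPolynomial (Fin n) ℂ))
    (q : Fin n → ℂ) (g : MvPolynomial (Fin n) ℂ) :
    eval q (D g) = ∑ l, eval q (D (X l)) * eval q (pderiv l g) := by
  have h2 : D = ∑ l, D (X l) • (pderiv l : Derivation ℂ (MvPolynomial (Fin n) ℂ) _) := by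
    refine MvPolynomial.derivation_ext fun i => ?_
    rw [sum_der, Finset.sum_eq_single i]
    · rw [Derivation.smul_apply, pderiv_X_self, smul_eq_mul, mul_one]
    · intro l _ hl
      rw [Derivation.smul_apply, pderiv_X_of_ne (Ne.symm hl), smul_zero]
    · exact fun h => absurd (Finset.mem_univ i) h
  conv_lhs => rw [h2]
  rw [sum_der, map_sum]
  refine Finset.sum_congr rfl fun l _ => ?_
  rw [Derivation.smul_apply, smul_eq_mul, map_mul]

theorem eval_det_Hm (f : MvPolynomial (Fin n) ℂ) (J : Fin r → Fin n) (q : Fin n → ℂ) :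
    eval q (Hm f J).det = (Matrix.of fun i j => eval q (pderiv (J i) (pderiv (J j) f))).det :=
  MB.eval_det f J q

/-- The differentials of the `∂_{J i} f` are independent. -/
theorem li_u {f : MvPolynomial (Fin n) ℂ} {J : Fin r → Fin n} {q : Fin n → ℂ}
    (hδ : eval q (Hm f J).det ≠ 0) :
    LinearIndependent ℂ fun (i : Fin r) (l : Fin n) => eval q (pderiv l (pderiv (J i) f)) := by
  obtain ⟨H, hH⟩ : ∃ H : Matrix (Fin r) (Fin r) ℂ,
      H = Matrix.of fun i j => eval q (pderiv (J i) (pderiv (J j) f)) := ⟨_, rfl⟩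
  rw [eval_det_Hm, ← hH] at hδ
  have h1 : LinearIndependent ℂ (H.transpose).row := by
    rw [Matrix.linearIndependent_rows_iff_isUnit, Matrix.isUnit_iff_isUnit_det,
      Matrix.det_transpose]
    exact isUnit_iff_ne_zero.2 hδ
  refine LinearIndependent.of_comp (LinearMap.funLeft ℂ ℂ J) ?_
  have h2 : (LinearMap.funLeft ℂ ℂ J) ∘ (fun (j : Fin r) (l : Fin n) =>
      eval q (pderiv l (pderiv (J j) f))) = (H.transpose).row := by
    funext j i
    rw [Function.comp_apply, LinearMap.funLeft_apply]
    show _ = H.transpose j i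
    rw [Matrix.transpose_apply, hH, Matrix.of_apply]
  rw [h2]
  exact h1

/-- The differentials of the `∂_{J i} f` and of `v`, `DJ f J c v ≠ 0`, are independent. -/
theorem li_uv {f : MvPolynomial (Fin n) ℂ} {J : Fin r → Fin n} {q : Fin n → ℂ}
    (hδ : eval q (Hm f J).det ≠ 0) {c : Fin n} {v : MvPolynomial (Fin n) ℂ}
    (hv : eval q (DJ f J c v) ≠ 0) :
    LinearIndependent ℂ fun (i : Fin (r + 1)) (l : Fin n) => eval q (pderiv l
      ((Fin.snoc (fun i => pderiv (J i) f) v : Fin (r + 1) → MvPolynomial (Fin n) ℂ) i)) := by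
  rw [Fintype.linearIndependent_iff]
  intro a ha
  have h1 : a (Fin.last r) = 0 := by
    have h2 : ∑ i, a i * eval q (DJ f J c
        ((Fin.snoc (fun i => pderiv (J i) f) v : Fin (r + 1) → MvPolynomial (Fin n) ℂ) i)) = 0 := by
      have h5 : ∀ i, a i * eval q (DJ f J c
          ((Fin.snoc (fun i => pderiv (J i) f) v : Fin (r + 1) → MvPolynomial (Fin n) ℂ) i)) =
          ∑ l, a i * (eval q (DJ f J c (X l)) * eval q (pderiv l
          ((Fin.snoc (fun i => pderiv (J i) f) v : Fin (r + 1) → MvPolynomial (Fin n) ℂ) i))) :=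
        fun i => by rw [eval_der, Finset.mul_sum]
      rw [Finset.sum_congr rfl fun i _ => h5 i, Finset.sum_comm]
      refine Finset.sum_eq_zero fun l _ => ?_
      have h3 := congrFun ha l
      rw [Finset.sum_apply] at h3
      simp only [Pi.smul_apply, smul_eq_mul, Pi.zero_apply] at h3
      have h4 : ∀ i, a i * (eval q (DJ f J c (X l)) * eval q (pderiv l
          ((Fin.snoc (fun i => pderiv (J i) f) v : Fin (r + 1) → MvPolynomial (Fin n) ℂ) i))) =
          eval q (DJ f J c (X l)) * (a i * eval q (pderiv l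
          ((Fin.snoc (fun i => pderiv (J i) f) v : Fin (r + 1) → MvPolynomial (Fin n) ℂ) i))) :=
        fun i => by ring
      rw [Finset.sum_congr rfl fun i _ => h4 i, ← Finset.mul_sum, h3, mul_zero]
    rw [Fin.sum_univ_castSucc] at h2
    simp only [Fin.snoc_castSucc, Fin.snoc_last, DJ_u, map_zero, mul_zero,
      Finset.sum_const_zero, zero_add] at h2
    exact (mul_eq_zero.1 h2).resolve_right hv
  have h2 : ∑ i : Fin r, a i.castSucc • (fun l : Fin n => eval q (pderiv l (pderiv (J i) f))) =
      0 := by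
    rw [Fin.sum_univ_castSucc, h1, zero_smul, add_zero] at ha
    simpa only [Fin.snoc_castSucc] using ha
  have h3 := Fintype.linearIndependent_iff.1 (li_u hδ) (fun i => a i.castSucc) h2
  intro i
  refine Fin.lastCases h1 (fun i => h3 i) i

end CK

end MPb07157
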