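import Pool.Agent.Lib.MP_b07157_agSF.Base

/-!
# Prime ideals which contain all but one of the coordinates
-/

noncomputable section

namespace MPb07157

open MvPolynomial

namespace CK

variable {n : ℕ}

namespace LemL

/-- A power series all of whose monomials contain one of the variables of `T`. -/
theorem mem_span_vars (T : Finset (Fin n)) : ∀ h : MvPowerSeries (Fin n) ℂ,
    (∀ v : Fin n →₀ ℕ, (∀ i ∈ T, v i = 0) → MvPowerSeries.coeff v h = 0) →
    h ∈ Ideal.span ((fun i : Fin n => (MvPowerSeries.X i : MvPowerSeries (Fin n) ℂ)) '' T) := by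
  classical
  induction T using Finset.induction_on with
  | empty =>
    intro h hv
    have h0 : h = 0 := by
      ext v
      rw [hv v (fun i hi => absurd hi (Finset.notMem_empty i)), map_zero]
    rw [h0]
    exact Ideal.zero_mem _
  | insert a T ha ih =>
    intro h hv
    let h1 : MvPowerSeries (Fin n) ℂ := fun v => if v a = 0 then MvPowerSeries.coeff v h else 0
    have hh1 : ∀ v, MvPowerSeries.coeff v h1 = if v a = 0 then MvPowerSeries.coeff v h else 0 :=
      fun _ => rfl
    have h2 : h1 ∈ Ideal.span ((fun i : Fin n =>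
        (MvPowerSeries.X i : MvPowerSeries (Fin n) ℂ)) '' T) := by
      refine ih h1 fun v hvT => ?_
      rw [hh1]
      by_cases hva : v a = 0
      · rw [if_pos hva]
        refine hv v fun i hi => ?_
        rcases Finset.mem_insert.1 hi with rfl | hi
        · exact hva
        · exact hvT i hi
      · rw [if_neg hva]
    have h3 : (MvPowerSeries.X a : MvPowerSeries (Fin n) ℂ) ∣ h - h1 := by
      rw [MvPowerSeries.X_dvd_iff]
      intro v hva
      rw [map_sub, hh1, if_pos hva, sub_self]
    obtain ⟨c, hc⟩ := h3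
    have h4 : h = MvPowerSeries.X a * c + h1 := by rw [← hc, sub_add_cancel]
    rw [h4]
    refine Ideal.add_mem _ (Ideal.mul_mem_right _ _ (Ideal.subset_span ⟨a, ?_, rfl⟩)) ?_
    · exact Finset.mem_coe.2 (Finset.mem_insert_self a T)
    · refine Ideal.span_mono (Set.image_mono ?_) h2
      exact Finset.coe_subset.2 (Finset.subset_insert a T)

/-- Modulo the other variables a power series is zero or a power of `X t` times a unit. -/
theorem pure_part (t : Fin n) (h : MvPowerSeries (Fin n) ℂ) :
    h ∈ Ideal.span ((fun i : Fin n => (MvPowerSeries.X i : MvPowerSeries (Fin n) ℂ)) ''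
      {i | i ≠ t}) ∨
    ∃ (s : ℕ) (u r : MvPowerSeries (Fin n) ℂ), IsUnit u ∧
      r ∈ Ideal.span ((fun i : Fin n => (MvPowerSeries.X i : MvPowerSeries (Fin n) ℂ)) ''
        {i | i ≠ t}) ∧ h = MvPowerSeries.X t ^ s * u + r := by
  classical
  have hset : ((Finset.univ.filter fun i : Fin n => i ≠ t : Finset (Fin n)) : Set (Fin n)) =
      {i | i ≠ t} := by
    ext i
    simp
  rw [← hset]
  set T := Finset.univ.filter fun i : Fin n => i ≠ t with hT
  let h' : MvPowerSeries (Fin n) ℂ := fun v =>
    if ∀ i ∈ T, v i = 0 then MvPowerSeries.coeff v h else 0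
  have hh' : ∀ v, MvPowerSeries.coeff v h' =
      if ∀ i ∈ T, v i = 0 then MvPowerSeries.coeff v h else 0 := fun _ => rfl
  have hr : h - h' ∈ Ideal.span ((fun i : Fin n =>
      (MvPowerSeries.X i : MvPowerSeries (Fin n) ℂ)) '' T) := by
    refine mem_span_vars T _ fun v hv => ?_
    rw [map_sub, hh', if_pos hv, sub_self]
  have hpure : ∀ v : Fin n →₀ ℕ, (∀ i ∈ T, v i = 0) → v = Finsupp.single t (v t) := by
    intro v hv
    ext i
    by_cases hi : i = t
    · subst hi
      rw [Finsupp.single_eq_same]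
    · rw [Finsupp.single_eq_of_ne hi]
      exact hv i (by rw [hT, Finset.mem_filter]; exact ⟨Finset.mem_univ _, hi⟩)
  have hpt : ∀ m : ℕ, ∀ i ∈ T, (Finsupp.single t m : Fin n →₀ ℕ) i = 0 := by
    intro m i hi
    rw [hT, Finset.mem_filter] at hi
    exact Finsupp.single_eq_of_ne hi.2
  by_cases hz : ∀ m : ℕ, MvPowerSeries.coeff (Finsupp.single t m) h' = 0
  · left
    have h0 : h' = 0 := by
      ext v
      rw [map_zero]
      by_cases hv : ∀ i ∈ T, v i = 0
      · rw [hpure v hv, hz]
      · rw [hh', if_neg hv]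
    rw [h0, sub_zero] at hr
    exact hr
  · right
    push Not at hz
    have hex : ∃ m, MvPowerSeries.coeff (Finsupp.single t m) h' ≠ 0 := hz
    obtain ⟨u, hu⟩ : (MvPowerSeries.X t : MvPowerSeries (Fin n) ℂ) ^ (Nat.find hex) ∣ h' := by
      rw [MvPowerSeries.X_pow_dvd_iff]
      intro v hv
      by_cases hp : ∀ i ∈ T, v i = 0
      · have h5 := Nat.find_min hex hv
        push Not at h5
        rw [hpure v hp]
        exact h5
      · rw [hh', if_neg hp]
    refine ⟨Nat.find hex, u, h - h', ?_, hr, by rw [← hu]; ring⟩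
    rw [MvPowerSeries.isUnit_iff_constantCoeff, isUnit_iff_ne_zero]
    have h6 := Nat.find_spec hex
    have h7 : MvPowerSeries.coeff (Finsupp.single t (Nat.find hex)) h' =
        MvPowerSeries.constantCoeff u := by
      have h8 := MvPowerSeries.coeff_add_monomial_mul (Finsupp.single t (Nat.find hex))
        (0 : Fin n →₀ ℕ) u (1 : ℂ)
      rw [add_zero, ← MvPowerSeries.X_pow_eq, one_mul,
        MvPowerSeries.coeff_zero_eq_constantCoeff_apply] at h8
      rw [← h8]
      exact congrArg (MvPowerSeries.coeff (Finsupp.single t (Nat.find hex))) hu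
    rw [← h7]
    exact h6

/-- The automorphism given by a system of coordinates. -/
theorem exists_auto {q : Fin n → ℂ} {v : Fin n → MvPolynomial (Fin n) ℂ}
    (hv : ∀ i, eval q (v i) = 0)
    (hli : LinearIndependent ℂ fun (i l : Fin n) => eval q (pderiv l (v i))) :
    ∃ e : MvPowerSeries (Fin n) ℂ ≃ₐ[ℂ] MvPowerSeries (Fin n) ℂ,
      ∀ i, e (MvPowerSeries.X i) = loc q (v i) := by
  have hJ : (Matrix.of fun i j => MvPowerSeries.coeff (Finsupp.single j 1)
      (loc q (v i))).det ≠ 0 := by
    have e1 : (Matrix.of fun i j => MvPowerSeries.coeff (Finsupp.single j 1) (loc q (v i))) =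
        Matrix.of fun i l => eval q (pderiv l (v i)) := by
      ext i j
      rw [Matrix.of_apply, Matrix.of_apply, ← constantCoeff_loc, ← pderiv_loc,
        ← MvPowerSeries.coeff_zero_eq_constantCoeff_apply, MvPowerSeries.coeff_pderiv]
      simp
    rw [e1, ← isUnit_iff_ne_zero, ← Matrix.isUnit_iff_isUnit_det,
      ← Matrix.linearIndependent_rows_iff_isUnit]
    exact hli
  obtain ⟨e, he⟩ := IFT.exists_equiv (a := fun i => loc q (v i))
    (fun i => by rw [constantCoeff_loc, hv]) hJ
  refine ⟨e, fun i => ?_⟩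
  have := he (X i)
  rwa [MvPolynomial.coe_X, aeval_X] at this

/-- A prime ideal with infinitely many zeros does not contain a system of coordinates. -/
theorem not_all {𝔭 : Ideal (MvPolynomial (Fin n) ℂ)} (h𝔭 : 𝔭.IsPrime)
    (hinf : (Vz 𝔭).Infinite) {q : Fin n → ℂ} (hq : q ∈ Vz 𝔭)
    {v : Fin n → MvPolynomial (Fin n) ℂ} (hv : ∀ i, v i ∈ 𝔭)
    (hli : LinearIndependent ℂ fun (i l : Fin n) => eval q (pderiv l (v i))) : False := by
  classical
  obtain ⟨e, he⟩ := exists_auto (fun i => hq _ (hv i)) hli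
  have hX : ∀ l : Fin n, (MvPowerSeries.X l : MvPowerSeries (Fin n) ℂ) ∈ 𝔭.map (loc q) := by
    intro l
    have hc : MvPowerSeries.constantCoeff (e.symm (MvPowerSeries.X l)) = 0 := by
      by_contra hne
      have h1 : IsUnit (e.symm (MvPowerSeries.X l : MvPowerSeries (Fin n) ℂ)) := by
        rw [MvPowerSeries.isUnit_iff_constantCoeff]
        exact isUnit_iff_ne_zero.2 hne
      have h2 := h1.map e
      rw [e.apply_symm_apply, MvPowerSeries.isUnit_iff_constantCoeff,
        MvPowerSeries.constantCoeff_X] at h2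
      exact not_isUnit_zero h2
    have h3 : e.symm (MvPowerSeries.X l) ∈ Ideal.span ((fun i : Fin n =>
        (MvPowerSeries.X i : MvPowerSeries (Fin n) ℂ)) '' (Finset.univ : Finset (Fin n))) := by
      refine mem_span_vars Finset.univ _ fun w hw => ?_
      have hw0 : w = 0 := Finsupp.ext fun i => hw i (Finset.mem_univ i)
      rw [hw0, MvPowerSeries.coeff_zero_eq_constantCoeff_apply, hc]
    have h4 := Ideal.mem_map_of_mem (e : MvPowerSeries (Fin n) ℂ →+* MvPowerSeries (Fin n) ℂ) h3
    rw [Ideal.map_span] at h4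
    have h5 : (MvPowerSeries.X l : MvPowerSeries (Fin n) ℂ) ∈
        Ideal.span ((e : MvPowerSeries (Fin n) ℂ →+* MvPowerSeries (Fin n) ℂ) ''
          ((fun i : Fin n => (MvPowerSeries.X i : MvPowerSeries (Fin n) ℂ)) ''
            (Finset.univ : Finset (Fin n)))) := by
      have h6 : (e : MvPowerSeries (Fin n) ℂ →+* MvPowerSeries (Fin n) ℂ)
          (e.symm (MvPowerSeries.X l)) = MvPowerSeries.X l := e.apply_symm_apply _
      rwa [h6] at h4
    refine (Ideal.span_le.2 ?_) h5
    rintro _ ⟨_, ⟨i, -, rfl⟩, rfl⟩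
    have h7 : (e : MvPowerSeries (Fin n) ℂ →+* MvPowerSeries (Fin n) ℂ) (MvPowerSeries.X i) =
        loc q (v i) := he i
    rw [SetLike.mem_coe]
    show (e : MvPowerSeries (Fin n) ℂ →+* MvPowerSeries (Fin n) ℂ) (MvPowerSeries.X i) ∈ _
    rw [h7]
    exact Ideal.mem_map_of_mem _ (hv i)
  have hXm : ∀ l : Fin n, (X l - C (q l) : MvPolynomial (Fin n) ℂ) ∈ 𝔭 := by
    intro l
    have h1 : loc q (X l - C (q l)) = MvPowerSeries.X l := by
      unfold loc
      rw [map_sub, aeval_X, aeval_C]
      exact add_sub_cancel_right _ _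
    obtain ⟨s, hs, hsm⟩ := exists_mem q (𝔞 := 𝔭) (α := X l - C (q l)) (by rw [h1]; exact hX l)
    rcases h𝔭.mem_or_mem hsm with h2 | h2
    · exact absurd (hq s h2) hs
    · exact h2
  refine hinf (Set.Finite.subset (Set.finite_singleton q) fun p hp => ?_)
  rw [Set.mem_singleton_iff]
  funext l
  have h1 := hp _ (hXm l)
  rw [map_sub, eval_X, eval_C, sub_eq_zero] at h1
  exact h1

/-- A unit vector completes `n - 1` independent vectors. -/
theorem exists_unit {k : ℕ} {d : Fin k → Fin (k + 1) → ℂ} (hd : LinearIndependent ℂ d) :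
    ∃ l : Fin (k + 1), LinearIndependent ℂ (Fin.cons (Pi.single l 1) d :
      Fin (k + 1) → Fin (k + 1) → ℂ) := by
  classical
  by_contra hcon
  push Not at hcon
  have h1 : ∀ l : Fin (k + 1), (Pi.single l 1 : Fin (k + 1) → ℂ) ∈
      Submodule.span ℂ (Set.range d) := by
    intro l
    by_contra h2
    exact hcon l (linearIndependent_finCons.2 ⟨hd, h2⟩)
  have h3 : (⊤ : Submodule ℂ (Fin (k + 1) → ℂ)) ≤ Submodule.span ℂ (Set.range d) := by
    intro x _
    have h4 : x = ∑ l, x l • (Pi.single l 1 : Fin (k + 1) → ℂ) := by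
      funext i
      simp [Finset.sum_apply, Pi.single_apply]
    rw [h4]
    exact Submodule.sum_mem _ fun l _ => Submodule.smul_mem _ _ (h1 l)
  have h5 := finrank_range_le_card (R := ℂ) d
  have h6 : Set.finrank ℂ (Set.range d) = k + 1 := by
    unfold Set.finrank
    rw [top_le_iff.1 h3, finrank_top, Module.finrank_fin_fun]
  rw [h6, Fintype.card_fin] at h5
  omega

end LemL

/-- Let `q` be a zero of the prime ideal `𝔭` with infinitely many zeros, and let `w_1, …, w_k ∈ 𝔭`,
`k ≥ n - 1`, have independent differentials at `q`. Then `𝔭` is in the ideal generated by the `w_i` in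
the ring of power series at `q`. Proof: complete the `w_i` to a system `v` of coordinates at `q`
(if `k = n - 1` by a linear form `t`; `k ≤ n` by independence); by the formal inverse function theorem
(`IFT.exists_equiv`, `agM/IFT.lean`) there is an automorphism `E` with `E(X_i) = loc q (v_i)`. If
`g ∈ 𝔭` and `loc q g` is not in the ideal of the `w_i`, then `E⁻¹(loc q g)` is `X_t^s` times a unit
modulo the other variables, `s > 0`, so `loc q (t^s)` is in `𝔭.map (loc q)`, and `exists_mem`
(`Base.lean`) gives `s₀ t^s ∈ 𝔭`, `s₀(q) ≠ 0`, so `s₀ ∉ 𝔭`, `t ∈ 𝔭`. Hence in any case (also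
for `k = n`) all coordinates `v_i` are in `𝔭`, the ideal generated by the `loc q (v_i)` contains all
`X_l = loc q (x_l - q_l)`, so `x_l - q_l ∈ 𝔭` again by `exists_mem`, and `q` is the only zero of
`𝔭`: a contradiction. -/
theorem loc_mem_of_indep {𝔭 : Ideal (MvPolynomial (Fin n) ℂ)} (h𝔭 : 𝔭.IsPrime)
    (hinf : (Vz 𝔭).Infinite) {q : Fin n → ℂ} (hq : q ∈ Vz 𝔭) {k : ℕ}
    {w : Fin k → MvPolynomial (Fin n) ℂ} (hk : n ≤ k + 1) (hw : ∀ i, w i ∈ 𝔭)
    (hli : LinearIndependent ℂ fun (i : Fin k) (l : Fin n) => eval q (pderiv l (w i)))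
    {g : MvPolynomial (Fin n) ℂ} (hg : g ∈ 𝔭) :
    loc q g ∈ Ideal.span (Set.range fun i => loc q (w i)) := by
  classical
  have hle : k ≤ n := by
    have h1 := hli.fintype_card_le_finrank
    rwa [Fintype.card_fin, Module.finrank_fin_fun] at h1
  rcases hle.lt_or_eq with hlt | rfl
  · obtain rfl : n = k + 1 := by omega
    obtain ⟨l₀, hl₀⟩ := LemL.exists_unit hli
    let v : Fin (k + 1) → MvPolynomial (Fin (k + 1)) ℂ := Fin.cons (X l₀ - C (q l₀)) w
    have hv0 : v 0 = X l₀ - C (q l₀) := rfl
    have hvs : ∀ i : Fin k, v i.succ = w i := fun i => rfl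
    have hliv : LinearIndependent ℂ fun (i l : Fin (k + 1)) => eval q (pderiv l (v i)) := by
      have e1 : (fun (i l : Fin (k + 1)) => eval q (pderiv l (v i))) =
          (Fin.cons (Pi.single l₀ 1) (fun (i : Fin k) (l : Fin (k + 1)) =>
            eval q (pderiv l (w i))) : Fin (k + 1) → Fin (k + 1) → ℂ) := by
        funext i
        refine Fin.cases ?_ (fun i => ?_) i
        · funext l
          rw [hv0, Fin.cons_zero, map_sub, pderiv_C, sub_zero, pderiv_X]
          by_cases h : l = l₀
          · subst h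
            simp
          · simp [h, Ne.symm h]
        · rfl
      rw [e1]
      exact hl₀
    have hvq : ∀ i, eval q (v i) = 0 := by
      intro i
      refine Fin.cases ?_ (fun i => ?_) i
      · rw [hv0, map_sub, eval_X, eval_C, sub_self]
      · exact hq _ (hw i)
    obtain ⟨e, he⟩ := LemL.exists_auto hvq hliv
    -- the image of the ideal of the other variables
    have himg : ∀ r ∈ Ideal.span ((fun i : Fin (k + 1) =>
        (MvPowerSeries.X i : MvPowerSeries (Fin (k + 1)) ℂ)) '' {i | i ≠ 0}),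
        e r ∈ Ideal.span (Set.range fun i => loc q (w i)) := by
      intro r hr
      have h1 := Ideal.mem_map_of_mem
        (e : MvPowerSeries (Fin (k + 1)) ℂ →+* MvPowerSeries (Fin (k + 1)) ℂ) hr
      rw [Ideal.map_span] at h1
      refine (Ideal.span_le.2 ?_) h1
      rintro _ ⟨_, ⟨i, hi, rfl⟩, rfl⟩
      obtain ⟨j, rfl⟩ := Fin.exists_succ_eq.2 hi
      exact Ideal.subset_span ⟨j, ((he j.succ).trans (by rw [hvs])).symm⟩
    rcases LemL.pure_part (0 : Fin (k + 1)) (e.symm (loc q g)) with h1 | ⟨s, u, r, hu, hr, hsu⟩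
    · have h2 := himg _ h1
      rwa [e.apply_symm_apply] at h2
    · exfalso
      have h2 : loc q g = loc q (v 0) ^ s * e u + e r := by
        have h3 := congrArg e hsu
        rwa [e.apply_symm_apply, map_add, map_mul, map_pow, he] at h3
      have hspan : Ideal.span (Set.range fun i => loc q (w i)) ≤ 𝔭.map (loc q) := by
        rw [Ideal.span_le]
        rintro _ ⟨i, rfl⟩
        exact Ideal.mem_map_of_mem _ (hw i)
      have h4 : loc q (v 0) ^ s * e u ∈ 𝔭.map (loc q) := by
        have h5 : loc q (v 0) ^ s * e u = loc q g - e r := by rw [h2]; ring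
        rw [h5]
        exact Ideal.sub_mem _ (Ideal.mem_map_of_mem _ hg) (hspan (himg r hr))
      have h6 : loc q (v 0 ^ s) ∈ 𝔭.map (loc q) := by
        rw [map_pow]
        exact (Ideal.mul_unit_mem_iff_mem _ (hu.map e)).1 h4
      obtain ⟨s₀, hs₀, hm⟩ := exists_mem q h6
      have h7 : v 0 ∈ 𝔭 := by
        rcases h𝔭.mem_or_mem hm with h8 | h8
        · exact absurd (hq s₀ h8) hs₀
        · exact h𝔭.mem_of_pow_mem s h8
      refine LemL.not_all h𝔭 hinf hq (v := v) (fun i => ?_) hliv
      refine Fin.cases h7 (fun i => ?_) i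
      exact hw i
  · exact (LemL.not_all h𝔭 hinf hq hw hli).elim

end CK

end MPb07157
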