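import Pool.Agent.Lib.MP_b07157_agSF.Defs

/-!
# Noetherian induction
-/

noncomputable section

namespace MPb07157

open MvPolynomial

namespace CK

variable {n : ℕ}

namespace Noeth


theorem mem_Vz_sup_span {I : Ideal (MvPolynomial (Fin n) ℂ)} {a : MvPolynomial (Fin n) ℂ}
    {q : Fin n → ℂ} (hq : q ∈ Vz I) (ha : eval q a = 0) : q ∈ Vz (I ⊔ Ideal.span {a}) := by
  intro g hg
  obtain ⟨u, hu, v, hv, rfl⟩ := Submodule.mem_sup.1 hg
  obtain ⟨w, rfl⟩ := Ideal.mem_span_singleton'.1 hv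
  rw [map_add, map_mul, ha, mul_zero, add_zero]
  exact hq u hu

theorem lt_sup_span {I : Ideal (MvPolynomial (Fin n) ℂ)} {a : MvPolynomial (Fin n) ℂ}
    (ha : a ∉ I) : I < I ⊔ Ideal.span {a} := by
  refine lt_of_le_of_ne le_sup_left fun he => ha ?_
  rw [he]
  exact Ideal.mem_sup_right (Ideal.mem_span_singleton_self a)

end Noeth

/-- If for each prime ideal `𝔭 ⊇ I` a non-empty Zariski open subset of the zero set of `𝔭` is covered
by finitely many sets with the property `PW`, then so is the zero set of `I`. Proof: Noetherian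
induction on `I` (`IsNoetherian.induction` or well-foundedness of `>`): if `I = ⊤` there is nothing to
cover; if `a b ∈ I`, `a, b ∉ I`, use `I + (a)`, `I + (b)`; if `I` is prime, use `T₁` and
`I + (δ)`. -/
theorem exists_fin_cover (PW : Set (Fin n → ℂ) → Prop) (I : Ideal (MvPolynomial (Fin n) ℂ))
    (h : ∀ 𝔭 : Ideal (MvPolynomial (Fin n) ℂ), 𝔭.IsPrime → I ≤ 𝔭 →
      ∃ T₁ : Set (Set (Fin n → ℂ)), T₁.Finite ∧ (∀ W ∈ T₁, PW W) ∧
        ∃ δ ∉ 𝔭, ∀ q ∈ Vz 𝔭, eval q δ ≠ 0 → ∃ W ∈ T₁, q ∈ W) :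
    ∃ T : Set (Set (Fin n → ℂ)), T.Finite ∧ (∀ W ∈ T, PW W) ∧ ∀ q ∈ Vz I, ∃ W ∈ T, q ∈ W := by
  revert h
  refine IsNoetherian.induction (R := MvPolynomial (Fin n) ℂ) (M := MvPolynomial (Fin n) ℂ)
    (P := fun I : Ideal (MvPolynomial (Fin n) ℂ) =>
      (∀ 𝔭 : Ideal (MvPolynomial (Fin n) ℂ), 𝔭.IsPrime → I ≤ 𝔭 →
        ∃ T₁ : Set (Set (Fin n → ℂ)), T₁.Finite ∧ (∀ W ∈ T₁, PW W) ∧
          ∃ δ ∉ 𝔭, ∀ q ∈ Vz 𝔭, eval q δ ≠ 0 → ∃ W ∈ T₁, q ∈ W) →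
      ∃ T : Set (Set (Fin n → ℂ)), T.Finite ∧ (∀ W ∈ T, PW W) ∧ ∀ q ∈ Vz I, ∃ W ∈ T, q ∈ W)
    ?_ I
  intro (I : Ideal (MvPolynomial (Fin n) ℂ)) ih h
  -- the union of two covers
  have key : ∀ a b : MvPolynomial (Fin n) ℂ, a ∉ I → b ∉ I →
      (∀ q ∈ Vz I, eval q a = 0 ∨ eval q b = 0) →
      ∃ T : Set (Set (Fin n → ℂ)), T.Finite ∧ (∀ W ∈ T, PW W) ∧
        ∀ q ∈ Vz I, ∃ W ∈ T, q ∈ W := by
    intro a b ha hb hab
    obtain ⟨T₁, h₁, h₁', h₁''⟩ := ih _ (Noeth.lt_sup_span ha)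
      fun 𝔭 hp hle => h 𝔭 hp (le_trans le_sup_left hle)
    obtain ⟨T₂, h₂, h₂', h₂''⟩ := ih _ (Noeth.lt_sup_span hb)
      fun 𝔭 hp hle => h 𝔭 hp (le_trans le_sup_left hle)
    refine ⟨T₁ ∪ T₂, h₁.union h₂, ?_, ?_⟩
    · rintro W (hW | hW)
      · exact h₁' W hW
      · exact h₂' W hW
    · intro q hq
      rcases hab q hq with h0 | h0
      · obtain ⟨W, hW, hqW⟩ := h₁'' q (Noeth.mem_Vz_sup_span hq h0)
        exact ⟨W, Or.inl hW, hqW⟩
      · obtain ⟨W, hW, hqW⟩ := h₂'' q (Noeth.mem_Vz_sup_span hq h0)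
        exact ⟨W, Or.inr hW, hqW⟩
  by_cases hp : I.IsPrime
  · obtain ⟨T₁, h₁, h₁', δ, hδ, h₁''⟩ := h I hp le_rfl
    obtain ⟨T₂, h₂, h₂', h₂''⟩ := ih _ (Noeth.lt_sup_span hδ)
      fun 𝔭 hp hle => h 𝔭 hp (le_trans le_sup_left hle)
    refine ⟨T₁ ∪ T₂, h₁.union h₂, ?_, ?_⟩
    · rintro W (hW | hW)
      · exact h₁' W hW
      · exact h₂' W hW
    · intro q hq
      by_cases h0 : eval q δ = 0
      · obtain ⟨W, hW, hqW⟩ := h₂'' q (Noeth.mem_Vz_sup_span hq h0)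
        exact ⟨W, Or.inr hW, hqW⟩
      · obtain ⟨W, hW, hqW⟩ := h₁'' q hq h0
        exact ⟨W, Or.inl hW, hqW⟩
  · by_cases hI : I = ⊤
    · refine ⟨∅, Set.finite_empty, fun W hW => absurd hW (Set.notMem_empty W), fun q hq => ?_⟩
      have h1 : eval q (1 : MvPolynomial (Fin n) ℂ) = 0 := hq 1 (by rw [hI]; exact Submodule.mem_top)
      rw [map_one] at h1
      exact absurd h1 one_ne_zero
    · have h2 : ∃ a b : MvPolynomial (Fin n) ℂ, a * b ∈ I ∧ a ∉ I ∧ b ∉ I := by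
        by_contra hc
        push Not at hc
        refine hp ⟨hI, fun {x y} hxy => ?_⟩
        by_cases hx : x ∈ I
        · exact Or.inl hx
        · exact Or.inr (hc x y hxy hx)
      obtain ⟨a, b, hab, ha, hb⟩ := h2
      refine key a b ha hb fun q hq => ?_
      have h3 := hq _ hab
      rw [map_mul] at h3
      exact mul_eq_zero.1 h3

/-- The Nullstellensatz: a polynomial which is not in the prime ideal `𝔭` does not vanish at some zero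
of `𝔭`, outside a given finite set if there are infinitely many zeros. -/
theorem exists_eval_ne_zero {𝔭 : Ideal (MvPolynomial (Fin n) ℂ)} (h𝔭 : 𝔭.IsPrime)
    {δ : MvPolynomial (Fin n) ℂ} (hδ : δ ∉ 𝔭) : ∃ q ∈ Vz 𝔭, eval q δ ≠ 0 := by
  by_contra hc
  push Not at hc
  refine hδ ?_
  have h1 : δ ∈ vanishingIdeal ℂ (zeroLocus ℂ 𝔭) := by
    rw [mem_vanishingIdeal_iff]
    intro q hq
    rw [aeval_eq_eval]
    refine hc q fun g hg => ?_
    have h2 := mem_zeroLocus_iff.1 hq g hg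
    rwa [aeval_eq_eval] at h2
  rw [vanishingIdeal_zeroLocus_eq_radical, h𝔭.radical] at h1
  exact h1

end CK

end MPb07157
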