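import Pool.Agent.Lib.MP_b07157_agSF.Base

/-!
# Derivatives and powers of an ideal
-/

noncomputable section

namespace MPb07157

open MvPolynomial

namespace CK

namespace Pow

variable {A : Type*} [CommRing A] [Algebra ℂ A]

theorem iter_mem (D : Derivation ℂ A A) {U : Ideal A} (hU : ∀ x ∈ U, D x ∈ U) (j : ℕ) {x : A}
    (hx : x ∈ U) : D^[j] x ∈ U := by
  induction j with
  | zero => exact hx
  | succ j ih =>
    rw [Function.iterate_succ_apply']
    exact hU _ ih

theorem iter_add (D : Derivation ℂ A A) (j : ℕ) (x y : A) :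
    D^[j] (x + y) = D^[j] x + D^[j] y := by
  induction j with
  | zero => rfl
  | succ j ih => rw [Function.iterate_succ_apply', Function.iterate_succ_apply',
      Function.iterate_succ_apply', ih, map_add]

theorem iter_pow (D : Derivation ℂ A A) (v h : A) (i : ℕ) : ∀ e : ℕ, ∃ g : A,
    D^[i] (v ^ (i + e) * h) = ((i + e).descFactorial i : A) * (D v) ^ i * v ^ e * h +
      v ^ (e + 1) * g := by
  induction i with
  | zero =>
    intro e
    refine ⟨0, ?_⟩
    simp
  | succ i ih =>
    intro e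
    obtain ⟨g, hg⟩ := ih (e + 1)
    refine ⟨((i + (e + 1)).descFactorial i : A) * D ((D v) ^ i * h) + ((e : A) + 2) * D v * g +
      v * D g, ?_⟩
    have e1 : i + 1 + e = i + (e + 1) := by ring
    have e2 : (i + (e + 1)).descFactorial (i + 1) = (e + 1) * (i + (e + 1)).descFactorial i := by
      rw [Nat.descFactorial_succ]
      congr 1
      omega
    rw [Function.iterate_succ_apply', e1, hg, e2]
    have h2 : D ((((i + (e + 1)).descFactorial i : ℕ) : A)) = 0 := D.map_natCast _
    have h3 : D (v ^ (e + 1)) = ((e : A) + 1) * v ^ e * D v := by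
      rw [D.leibniz_pow, Nat.add_sub_cancel]
      simp only [smul_eq_mul, nsmul_eq_mul]
      push_cast
      ring
    have h4 : D (v ^ (e + 1 + 1)) = ((e : A) + 2) * v ^ (e + 1) * D v := by
      rw [D.leibniz_pow, Nat.add_sub_cancel]
      simp only [smul_eq_mul, nsmul_eq_mul]
      push_cast
      ring
    have h1 : ((i + (e + 1)).descFactorial i : A) * (D v) ^ i * v ^ (e + 1) * h =
        ((i + (e + 1)).descFactorial i : A) * (v ^ (e + 1) * ((D v) ^ i * h)) := by ring
    have h5 : (((e + 1) * (i + (e + 1)).descFactorial i : ℕ) : A) * (D v) ^ (i + 1) * v ^ e * h =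
        ((e : A) + 1) * ((i + (e + 1)).descFactorial i : A) * D v * v ^ e * ((D v) ^ i * h) := by
      push_cast
      ring
    rw [h1, h5]
    generalize (D v) ^ i * h = y
    rw [map_add, D.leibniz, h2, D.leibniz, D.leibniz, h3, h4]
    simp only [smul_eq_mul]
    ring

end Pow

/-- If `D^j F ∈ U + (v)` for `j < m`, `D U ⊆ U` and `D v` is a unit, then `F ∈ U + (v^m)`. Proof: by
induction on `m`. If `F = A + v^j h`, `A ∈ U`, then `D^j F` is `j! (D v)^j h` modulo `U + (v)`, so
`h ∈ U + (v)`. -/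
theorem mem_pow {A : Type*} [CommRing A] [Algebra ℂ A] (D : Derivation ℂ A A) {U : Ideal A}
    (hU : ∀ x ∈ U, D x ∈ U) {v : A} (hv : IsUnit (D v)) {F : A} {m : ℕ}
    (h : ∀ j < m, D^[j] F ∈ U ⊔ Ideal.span {v}) : F ∈ U ⊔ Ideal.span {v ^ m} := by
  induction m with
  | zero =>
    rw [pow_zero, Ideal.span_singleton_one, sup_top_eq]
    exact Submodule.mem_top
  | succ m ih =>
    have h1 := ih fun j hj => h j (by omega)
    obtain ⟨a, ha, b, hb, hab⟩ := Submodule.mem_sup.1 h1
    obtain ⟨c, rfl⟩ := Ideal.mem_span_singleton'.1 hb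
    obtain ⟨g, hg⟩ := Pow.iter_pow D v c m 0
    have h2 := h m (by omega)
    simp only [Nat.add_zero, zero_add, pow_one, pow_zero, mul_one, Nat.descFactorial_self] at hg
    rw [← hab, Pow.iter_add, mul_comm c, hg] at h2
    have h3 : (m.factorial : A) * (D v) ^ m * c ∈ U ⊔ Ideal.span {v} := by
      have h4 : D^[m] a ∈ U ⊔ Ideal.span {v} := Ideal.mem_sup_left (Pow.iter_mem D hU m ha)
      have h5 : v * g ∈ U ⊔ Ideal.span {v} :=
        Ideal.mem_sup_right (Ideal.mul_mem_right _ _ (Ideal.mem_span_singleton_self v))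
      have h6 := Ideal.sub_mem _ (Ideal.sub_mem _ h2 h4) h5
      have e : D^[m] a + ((m.factorial : A) * (D v) ^ m * c + v * g) - D^[m] a - v * g =
          (m.factorial : A) * (D v) ^ m * c := by ring
      rwa [e] at h6
    have hu : IsUnit ((m.factorial : A) * (D v) ^ m) := by
      refine IsUnit.mul ?_ (hv.pow m)
      have h7 : IsUnit ((m.factorial : ℂ)) :=
        IsUnit.mk0 _ (Nat.cast_ne_zero.2 (Nat.factorial_ne_zero m))
      have h8 := h7.map (algebraMap ℂ A)
      rwa [map_natCast] at h8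
    have hc : c ∈ U ⊔ Ideal.span {v} := (Ideal.unit_mul_mem_iff_mem _ hu).1 h3
    obtain ⟨x, hx, y, hy, hxy⟩ := Submodule.mem_sup.1 hc
    obtain ⟨z, rfl⟩ := Ideal.mem_span_singleton'.1 hy
    rw [← hab, ← hxy]
    have e : a + (x + z * v) * v ^ m = (a + x * v ^ m) + z * v ^ (m + 1) := by ring
    rw [e]
    exact Submodule.add_mem_sup (U.add_mem ha (U.mul_mem_right _ hx))
      (Ideal.mul_mem_left _ _ (Ideal.mem_span_singleton_self _))

end CK

end MPb07157
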