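import Pool.Agent.Lib.MP_b07157_agSF.Base
import Pool.Agent.Lib.MP_b07157_agSC.Minor

/-!
# The Hessian modulo a prime ideal
-/

noncomputable section

namespace MPb07157

open MvPolynomial

namespace CK

variable {n : ℕ}

namespace RankP

/-- A non-zero minor bounds the rank. -/
theorem le_rank {K : Type*} [Field K] {n s : ℕ} (A : Matrix (Fin n) (Fin n) K)
    (I : Fin s → Fin n) (h : (A.submatrix I I).det ≠ 0) : s ≤ A.rank := by
  have h2 : LinearIndependent K (A.submatrix I I).row :=
    Matrix.linearIndependent_rows_iff_isUnit.2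
      ((Matrix.isUnit_iff_isUnit_det _).2 (isUnit_iff_ne_zero.2 h))
  have h3 : LinearIndependent K fun i => A.row (I i) := by
    rw [Fintype.linearIndependent_iff] at h2 ⊢
    intro g hg
    refine h2 g ?_
    funext j
    have h4 := congrFun hg (I j)
    rw [Finset.sum_apply] at h4 ⊢
    exact h4
  rw [Matrix.rank_eq_finrank_span_row]
  have h5 := finrank_span_eq_card h3
  rw [Fintype.card_fin] at h5
  rw [← h5]
  refine Submodule.finrank_mono (Submodule.span_mono ?_)
  rintro _ ⟨i, rfl⟩
  exact ⟨I i, rfl⟩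

/-- The rows of a non-zero minor of maximal order span the row space. -/
theorem exists_comb {K : Type*} [Field K] {n : ℕ} (A : Matrix (Fin n) (Fin n) K)
    (I : Fin A.rank → Fin n) (h : (A.submatrix I I).det ≠ 0) (c : Fin n) :
    ∃ b : Fin A.rank → K, ∀ k, A c k = ∑ i, b i * A (I i) k := by
  have h2 : LinearIndependent K (A.submatrix I I).row :=
    Matrix.linearIndependent_rows_iff_isUnit.2
      ((Matrix.isUnit_iff_isUnit_det _).2 (isUnit_iff_ne_zero.2 h))
  have h3 : LinearIndependent K fun i => A.row (I i) := by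
    rw [Fintype.linearIndependent_iff] at h2 ⊢
    intro g hg
    refine h2 g ?_
    funext j
    have h4 := congrFun hg (I j)
    rw [Finset.sum_apply] at h4 ⊢
    exact h4
  have h5 := finrank_span_eq_card h3
  rw [Fintype.card_fin] at h5
  have h6 : Submodule.span K (Set.range fun i => A.row (I i)) =
      Submodule.span K (Set.range A.row) := by
    refine Submodule.eq_of_le_of_finrank_eq (Submodule.span_mono ?_) ?_
    · rintro _ ⟨i, rfl⟩
      exact ⟨I i, rfl⟩
    · rw [h5]
      exact Matrix.rank_eq_finrank_span_row A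
  have h7 : A.row c ∈ Submodule.span K (Set.range fun i => A.row (I i)) := by
    rw [h6]
    exact Submodule.subset_span ⟨c, rfl⟩
  obtain ⟨b, hb⟩ := (Submodule.mem_span_range_iff_exists_fun K).1 h7
  refine ⟨b, fun k => ?_⟩
  have h8 := congrFun hb k
  rw [Finset.sum_apply] at h8
  exact h8.symm

/-- The Schur complement of a minor of maximal order vanishes. -/
theorem schur {K : Type*} [Field K] {n : ℕ} (A : Matrix (Fin n) (Fin n) K) (hA : ∀ i j, A i j = A j i)
    (I : Fin A.rank → Fin n) (h : (A.submatrix I I).det ≠ 0) (c k : Fin n) :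
    (A.submatrix I I).det * A c k -
      ∑ i, ∑ j, (A.submatrix I I).adjugate j i * A c (I i) * A (I j) k = 0 := by
  classical
  obtain ⟨b, hb⟩ := exists_comb A I h c
  have h1 : ∀ i j, (A.submatrix I I).adjugate j i = (A.submatrix I I).adjugate i j := by
    intro i j
    have h2 : (A.submatrix I I).transpose = A.submatrix I I := by
      ext x y
      exact hA _ _
    have h3 := Matrix.adjugate_transpose (A.submatrix I I)
    rw [h2] at h3
    exact congrFun (congrFun h3 i) j
  have h4 : ∀ j, ∑ i, (A.submatrix I I).adjugate j i * A c (I i) =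
      (A.submatrix I I).det * b j := by
    intro j
    have h5 : ∀ l, ∑ i, A (I l) (I i) * (A.submatrix I I).adjugate i j =
        if l = j then (A.submatrix I I).det else 0 := by
      intro l
      have h6 := congrFun (congrFun (Matrix.mul_adjugate (A.submatrix I I)) l) j
      rw [Matrix.mul_apply, Matrix.smul_apply, Matrix.one_apply, smul_eq_mul] at h6
      rw [show ∑ i, A (I l) (I i) * (A.submatrix I I).adjugate i j =
        ∑ i, (A.submatrix I I) l i * (A.submatrix I I).adjugate i j from rfl, h6]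
      split_ifs
      · rw [mul_one]
      · rw [mul_zero]
    calc ∑ i, (A.submatrix I I).adjugate j i * A c (I i) =
          ∑ i, ∑ l, b l * (A (I l) (I i) * (A.submatrix I I).adjugate i j) := by
          refine Finset.sum_congr rfl fun i _ => ?_
          rw [hb (I i), Finset.mul_sum, h1 i j]
          exact Finset.sum_congr rfl fun l _ => by ring
      _ = ∑ l, b l * ∑ i, A (I l) (I i) * (A.submatrix I I).adjugate i j := by
          rw [Finset.sum_comm]
          exact Finset.sum_congr rfl fun l _ => by rw [Finset.mul_sum]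
      _ = (A.submatrix I I).det * b j := by
          simp only [h5, mul_ite, mul_zero]
          rw [Finset.sum_ite_eq' Finset.univ j, if_pos (Finset.mem_univ _)]
          ring
  have h7 : ∑ i, ∑ j, (A.submatrix I I).adjugate j i * A c (I i) * A (I j) k =
      (A.submatrix I I).det * A c k := by
    rw [Finset.sum_comm]
    calc ∑ j, ∑ i, (A.submatrix I I).adjugate j i * A c (I i) * A (I j) k =
          ∑ j, (A.submatrix I I).det * (b j * A (I j) k) := by
          refine Finset.sum_congr rfl fun j _ => ?_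
          rw [← Finset.sum_mul, h4]
          ring
      _ = (A.submatrix I I).det * A c k := by
          rw [← Finset.mul_sum, ← hb]
  rw [h7, sub_self]

/-- The statement for a homomorphism to a field with kernel `𝔭`. -/
theorem core {K : Type*} [Field K] {n : ℕ} {f : MvPolynomial (Fin n) ℂ}
    {𝔭 : Ideal (MvPolynomial (Fin n) ℂ)} (φ : MvPolynomial (Fin n) ℂ →+* K)
    (hφ : ∀ g, φ g = 0 ↔ g ∈ 𝔭) {q₀ : Fin n → ℂ} (hq₀ : q₀ ∈ Vz 𝔭)
    (hr : n ≤ (YG.hessAt f q₀).rank + 2) :
    ∃ (r : ℕ) (J : Fin r → Fin n), n ≤ r + 2 ∧ Function.Injective J ∧ (Hm f J).det ∉ 𝔭 ∧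
      ∀ c k, DJ f J c (pderiv k f) ∈ 𝔭 := by
  classical
  obtain ⟨A, hA⟩ : ∃ A : Matrix (Fin n) (Fin n) K, ∀ i j, A i j = φ (pderiv i (pderiv j f)) :=
    ⟨Matrix.of fun i j => φ (pderiv i (pderiv j f)), fun i j => rfl⟩
  have hAs : ∀ i j, A i j = A j i := fun i j => by
    rw [hA, hA, pderiv_pderiv_comm]
  have hmap : ∀ {s : ℕ} (I : Fin s → Fin n), φ.mapMatrix (Hm f I) = A.submatrix I I := by
    intro s I
    ext x y
    rw [RingHom.mapMatrix_apply, Matrix.map_apply, Matrix.submatrix_apply, hA]
    simp only [Hm, Matrix.of_apply]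
  have hdet : ∀ {s : ℕ} (I : Fin s → Fin n), φ (Hm f I).det = (A.submatrix I I).det := by
    intro s I
    rw [RingHom.map_det, hmap]
  have hsA : A.IsSymm := by
    ext i j
    rw [Matrix.transpose_apply]
    exact hAs _ _
  obtain ⟨J, hJ, hJd⟩ := MB.exists_principal_minor A hsA
  have hrank : (YG.hessAt f q₀).rank ≤ A.rank := by
    have hsH : (YG.hessAt f q₀).IsSymm := by
      ext i j
      rw [Matrix.transpose_apply]
      simp only [YG.hessAt, Matrix.of_apply]
      rw [pderiv_pderiv_comm]
    obtain ⟨I, -, hId⟩ := MB.exists_principal_minor (YG.hessAt f q₀) hsH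
    refine le_rank A I ?_
    rw [← hdet I]
    intro h0
    have h1 : eval q₀ (Hm f I).det = 0 := hq₀ _ ((hφ _).1 h0)
    apply hId
    have h2 : (YG.hessAt f q₀).submatrix I I = (eval q₀).mapMatrix (Hm f I) := by
      ext x y
      rw [RingHom.mapMatrix_apply, Matrix.map_apply, Matrix.submatrix_apply]
      have e1 : Hm f I x y = pderiv (I x) (pderiv (I y) f) := rfl
      have e2 : YG.hessAt f q₀ (I x) (I y) = eval q₀ (pderiv (I x) (pderiv (I y) f)) := rfl
      rw [e1, e2]
    rw [h2, ← RingHom.map_det, h1]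
  refine ⟨A.rank, J, by omega, hJ, fun h0 => hJd ?_, fun c k => ?_⟩
  · rw [← hdet J]
    exact (hφ _).2 h0
  · have h1 := schur A hAs J hJd c k
    have h2 : ∀ i j, φ ((Hm f J).adjugate j i) = (A.submatrix J J).adjugate j i := by
      intro i j
      have h3 := RingHom.map_adjugate φ (Hm f J)
      rw [hmap] at h3
      rw [← h3, RingHom.mapMatrix_apply, Matrix.map_apply]
    rw [← hφ, DJ_apply, map_sub, map_mul, hdet, map_sum, ← hA c k]
    rw [← h1]
    congr 1
    refine Finset.sum_congr rfl fun i _ => ?_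
    rw [map_sum]
    refine Finset.sum_congr rfl fun l _ => ?_
    rw [map_mul, map_mul, h2, ← hA, ← hA]

end RankP

/-- Let `K` be the fraction field of `ℂ[x] / 𝔭`, `A` the image of the Hessian matrix of `f` in `K`,
`r` its rank and `J` a non-zero principal minor (`MB.exists_principal_minor`, `agSC/Minor.lean`).
`n ≤ r + 2`, because a minor of the Hessian with `rank` rows which does not vanish at `q₀` is not in
`𝔭`. The rows `J` of `A` span the row space (rank), so `A = B A[J, ·]`, `B = A[·, J] A[J, J]⁻¹`, and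
this is `D_c (∂_k f) = 0` in `K`, multiplied by `det A[J, J]` (`DJ_apply`). -/
theorem exists_minorP {f : MvPolynomial (Fin n) ℂ} {𝔭 : Ideal (MvPolynomial (Fin n) ℂ)}
    (h𝔭 : 𝔭.IsPrime) {q₀ : Fin n → ℂ} (hq₀ : q₀ ∈ Vz 𝔭) (hr : n ≤ (YG.hessAt f q₀).rank + 2) :
    ∃ (r : ℕ) (J : Fin r → Fin n), n ≤ r + 2 ∧ Function.Injective J ∧ (Hm f J).det ∉ 𝔭 ∧
      ∀ c k, DJ f J c (pderiv k f) ∈ 𝔭 := by
  have : 𝔭.IsPrime := h𝔭
  refine RankP.core (K := FractionRing (MvPolynomial (Fin n) ℂ ⧸ 𝔭))
    ((algebraMap (MvPolynomial (Fin n) ℂ ⧸ 𝔭)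
      (FractionRing (MvPolynomial (Fin n) ℂ ⧸ 𝔭))).comp (Ideal.Quotient.mk 𝔭)) ?_ hq₀ hr
  intro g
  rw [RingHom.comp_apply, ← Ideal.Quotient.eq_zero_iff_mem]
  exact map_eq_zero_iff _ (IsFractionRing.injective (MvPolynomial (Fin n) ℂ ⧸ 𝔭)
    (FractionRing (MvPolynomial (Fin n) ℂ ⧸ 𝔭)))

end CK

end MPb07157
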