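import Pool.Agent.Lib.MP_b07157_agSF.Base

/-!
# The expansion of `f` at the points of the strata
-/

noncomputable section

namespace MPb07157

open MvPolynomial

namespace CK

variable {n r : ℕ}

namespace Repr

theorem mem_of {A : Type*} [CommRing A] {r : ℕ} {u : Fin r → A} {w x : A}
    (h : x ∈ Ideal.span (Set.range u) ⊔ Ideal.span {w}) :
    ∃ (c : Fin r → A) (d : A), x = ∑ i, c i * u i + d * w := by
  obtain ⟨y, hy, z, hz, rfl⟩ := Submodule.mem_sup.1 h
  obtain ⟨c, hc⟩ := (Ideal.mem_span_range_iff_exists_fun).1 hy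
  obtain ⟨d, hd⟩ := Ideal.mem_span_singleton'.1 hz
  exact ⟨c, d, by rw [hc, hd]⟩

theorem main {A : Type*} [CommRing A] [Algebra ℂ A] {r : ℕ} (D : Fin r → Derivation ℂ A A)
    {F v : A} {m : ℕ} (hm : 0 < m)
    (hF : F ∈ Ideal.span (Set.range fun i => D i F) ⊔ Ideal.span {v ^ m})
    (hd : IsUnit (Matrix.of fun i j : Fin r => D i (D j F)).det) :
    ∃ (C' : Fin r → Fin r → A) (d : Fin r → A) (e : A),
      F = ∑ i, ∑ j, C' i j * (D i F * D j F) + ∑ i, d i * (D i F * v ^ (m - 1)) + e * v ^ m := by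
  classical
  obtain ⟨e, h, hFe⟩ := mem_of hF
  set H : Matrix (Fin r) (Fin r) A := Matrix.of fun i j : Fin r => D i (D j F) with hH
  set I : Ideal A := Ideal.span (Set.range fun i => D i F) ⊔ Ideal.span {v ^ (m - 1)} with hI
  have hu : ∀ i, D i F ∈ I := fun i =>
    Ideal.mem_sup_left (Ideal.subset_span ⟨i, rfl⟩)
  have hv : v ^ (m - 1) ∈ I := Ideal.mem_sup_right (Ideal.subset_span rfl)
  have hvm : v ^ m = v * v ^ (m - 1) := by
    rw [← pow_succ', Nat.sub_add_cancel hm]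
  have hHe : ∀ k, ∑ i, H k i * e i ∈ I := by
    intro k
    have h1 : D k F = D k (∑ i, e i * D i F + h * v ^ m) := congrArg (D k) hFe
    rw [map_add, map_sum, Derivation.leibniz, Derivation.leibniz_pow] at h1
    have h2 : ∀ i, D k (e i * D i F) = D k (e i) * D i F + H k i * e i := by
      intro i
      rw [Derivation.leibniz, smul_eq_mul, smul_eq_mul, hH, Matrix.of_apply]
      ring
    simp only [h2, smul_eq_mul, nsmul_eq_mul] at h1
    rw [Finset.sum_add_distrib] at h1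
    have h3 : ∑ i, H k i * e i = D k F - ∑ i, D k (e i) * D i F -
        (h * (m * D k v) * v ^ (m - 1) + v * D k h * v ^ (m - 1)) := by
      rw [h1, hvm]
      ring
    rw [h3]
    refine Ideal.sub_mem _ (Ideal.sub_mem _ (hu k) (Ideal.sum_mem _ fun i _ =>
      Ideal.mul_mem_left _ _ (hu i))) (Ideal.add_mem _ (Ideal.mul_mem_left _ _ hv)
        (Ideal.mul_mem_left _ _ hv))
  have hde : ∀ i, H.det * e i ∈ I := by
    intro i
    have h1 : H.det * e i = ∑ k, H.adjugate i k * ∑ j, H k j * e j := by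
      have h2 : (H.adjugate * H).mulVec e i = ∑ k, H.adjugate i k * ∑ j, H k j * e j := by
        rw [← Matrix.mulVec_mulVec]
        rfl
      rw [← h2, Matrix.adjugate_mul, Matrix.smul_mulVec, Matrix.one_mulVec]
      rfl
    rw [h1]
    exact Ideal.sum_mem _ fun k _ => Ideal.mul_mem_left _ _ (hHe k)
  have he : ∀ i, e i ∈ I := fun i => (Ideal.unit_mul_mem_iff_mem I hd).1 (hde i)
  choose c d hcd using fun i => mem_of (he i)
  refine ⟨c, d, h, ?_⟩
  conv_lhs => rw [hFe]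
  congr 1
  rw [← Finset.sum_add_distrib]
  refine Finset.sum_congr rfl fun i _ => ?_
  conv_lhs => rw [hcd i]
  rw [add_mul, Finset.sum_mul]
  congr 1
  · refine Finset.sum_congr rfl fun j _ => ?_
    ring
  · ring

end Repr

/-- `F = ∑ e_i u_i + v^m h`, `u_i = ∂_{J i} F`. Apply `∂_{J k}`:
`u_k = ∑ (∂_{J k} e_i) u_i + ∑ e_i H_ki + m v^(m-1) (∂_{J k} v) h + v^m ∂_{J k} h`, so all
`∑_i H_ki e_i` are in `(u) + (v^(m-1))`, and so are the `e_i` (multiply by the adjugate; `det H` is a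
unit). -/
theorem exists_repr {F v : MvPowerSeries (Fin n) ℂ} {J : Fin r → Fin n} {m : ℕ} (hm : 0 < m)
    (hF : F ∈ Ideal.span (Set.range fun i => MvPowerSeries.pderiv ℂ (J i) F) ⊔
      Ideal.span {v ^ m})
    (hd : IsUnit (Matrix.of fun i j : Fin r => MvPowerSeries.pderiv ℂ (J i)
      (MvPowerSeries.pderiv ℂ (J j) F)).det) :
    ∃ (C' : Fin r → Fin r → MvPowerSeries (Fin n) ℂ) (d : Fin r → MvPowerSeries (Fin n) ℂ)
      (e : MvPowerSeries (Fin n) ℂ),
      F = ∑ i, ∑ j, C' i j * (MvPowerSeries.pderiv ℂ (J i) F * MvPowerSeries.pderiv ℂ (J j) F) +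
        ∑ i, d i * (MvPowerSeries.pderiv ℂ (J i) F * v ^ (m - 1)) + e * v ^ m := by
  exact Repr.main (fun i => MvPowerSeries.pderiv ℂ (J i)) hm hF hd

end CK

end MPb07157
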