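import Pool.Agent.Lib.MP_b07157_agSF.Base

/-!
# Along the strata `f` is semi-quasi-homogeneous
-/

noncomputable section

namespace MPb07157

open MvPolynomial

namespace CK

variable {n r : ℕ}

namespace SqhW

/-- the maximal ideal of a point -/
private def mI (p : Fin n → ℂ) : Ideal (MvPolynomial (Fin n) ℂ) := RingHom.ker (eval p)

private theorem mem_mI {p : Fin n → ℂ} {x : MvPolynomial (Fin n) ℂ} :
    x ∈ mI p ↔ eval p x = 0 := RingHom.mem_ker

private theorem der_pow (D : Derivation ℂ (MvPolynomial (Fin n) ℂ) (MvPolynomial (Fin n) ℂ))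
    (I : Ideal (MvPolynomial (Fin n) ℂ)) :
    ∀ (j : ℕ) (x : MvPolynomial (Fin n) ℂ), x ∈ I ^ (j + 1) → D x ∈ I ^ j := by
  intro j
  induction j with
  | zero =>
    intro x _
    rw [pow_zero, Ideal.one_eq_top]
    exact Submodule.mem_top
  | succ j ih =>
    intro x hx
    rw [pow_succ, ← smul_eq_mul] at hx
    refine Submodule.smul_induction_on hx (fun y hy z hz => ?_) (fun y z hy hz => ?_)
    · rw [smul_eq_mul, Derivation.leibniz, smul_eq_mul, smul_eq_mul]
      refine Ideal.add_mem _ (Ideal.mul_mem_right _ _ hy) ?_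
      rw [mul_comm, pow_succ]
      exact Ideal.mul_mem_mul (ih y hy) hz
    · rw [map_add]
      exact Ideal.add_mem _ hy hz

private theorem der_iter_pow
    (D : Derivation ℂ (MvPolynomial (Fin n) ℂ) (MvPolynomial (Fin n) ℂ))
    (I : Ideal (MvPolynomial (Fin n) ℂ)) (j : ℕ) :
    ∀ (k : ℕ) (x : MvPolynomial (Fin n) ℂ), x ∈ I ^ (j + k) → D^[k] x ∈ I ^ j := by
  intro k
  induction k with
  | zero =>
    intro x hx
    exact hx
  | succ k ih =>
    intro x hx
    rw [Function.iterate_succ_apply]
    exact ih _ (der_pow D I _ x hx)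

private theorem der_iter_mul
    (D : Derivation ℂ (MvPolynomial (Fin n) ℂ) (MvPolynomial (Fin n) ℂ))
    {u : MvPolynomial (Fin n) ℂ} (hu : D u = 0) :
    ∀ (k : ℕ) (x : MvPolynomial (Fin n) ℂ), D^[k] (u * x) = u * D^[k] x := by
  intro k
  induction k with
  | zero =>
    intro x
    rfl
  | succ k ih =>
    intro x
    rw [Function.iterate_succ_apply, Function.iterate_succ_apply, Derivation.leibniz, hu,
      smul_zero, add_zero, smul_eq_mul, ih]

private theorem der_iter_lead
    (D : Derivation ℂ (MvPolynomial (Fin n) ℂ) (MvPolynomial (Fin n) ℂ)) (p : Fin n → ℂ) :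
    ∀ (k : ℕ) (a x : MvPolynomial (Fin n) ℂ), (∀ j < k, eval p (D^[j] x) = 0) →
      eval p (D^[k] (a * x)) = eval p a * eval p (D^[k] x) := by
  intro k
  induction k with
  | zero =>
    intro a x _
    rw [Function.iterate_zero_apply, Function.iterate_zero_apply, map_mul]
  | succ k ih =>
    intro a x hx
    rw [Function.iterate_succ_apply, Derivation.leibniz, smul_eq_mul, smul_eq_mul,
      iterate_map_add, map_add, ih a (D x) (fun j hj => by
        rw [← Function.iterate_succ_apply]
        exact hx (j + 1) (by omega)), mul_comm x, ih (D a) x (fun j hj => hx j (by omega)),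
      hx k (by omega), mul_zero, add_zero, ← Function.iterate_succ_apply]

private theorem der_eq (D : Derivation ℂ (MvPolynomial (Fin n) ℂ) (MvPolynomial (Fin n) ℂ))
    (g : MvPolynomial (Fin n) ℂ) : D g = ∑ l, D (X l) * pderiv l g := by
  classical
  have h2 : D = ∑ l, D (X l) • (pderiv l : Derivation ℂ (MvPolynomial (Fin n) ℂ) _) := by
    refine MvPolynomial.derivation_ext fun i => ?_
    rw [sum_der, Finset.sum_eq_single i]
    · rw [Derivation.smul_apply, pderiv_X_self, smul_eq_mul, mul_one]
    · intro l _ hl
      rw [Derivation.smul_apply, pderiv_X_of_ne (Ne.symm hl), smul_zero]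
    · exact fun h => absurd (Finset.mem_univ i) h
  conv_lhs => rw [h2]
  rw [sum_der]
  rfl

/-- the functional of a derivation at a point -/
private def fun1 (D : Derivation ℂ (MvPolynomial (Fin n) ℂ) (MvPolynomial (Fin n) ℂ))
    (p : Fin n → ℂ) : (Fin n → ℂ) →ₗ[ℂ] ℂ where
  toFun ξ := ∑ l, eval p (D (X l)) * ξ l
  map_add' ξ η := by
    simp only [Pi.add_apply, mul_add, Finset.sum_add_distrib]
  map_smul' c ξ := by
    simp only [Pi.smul_apply, smul_eq_mul, RingHom.id_apply, Finset.mul_sum]
    exact Finset.sum_congr rfl fun l _ => by ring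

private theorem fun1_apply (D : Derivation ℂ (MvPolynomial (Fin n) ℂ) (MvPolynomial (Fin n) ℂ))
    (p : Fin n → ℂ) (g : MvPolynomial (Fin n) ℂ) :
    fun1 D p (fun l => eval p (pderiv l g)) = eval p (D g) := by
  show ∑ l, eval p (D (X l)) * eval p (pderiv l g) = _
  rw [der_eq D g, map_sum]
  simp only [map_mul]

/-- Second derivatives of a product with three factors which vanish at `p`. -/
private theorem pderiv2_three {c x y z : MvPolynomial (Fin n) ℂ} {p : Fin n → ℂ}
    (hx : eval p x = 0) (hy : eval p y = 0) (hz : eval p z = 0) (l k : Fin n) :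
    eval p (pderiv l (pderiv k (c * (x * y * z)))) = 0 := by
  simp only [pderiv_mul, map_add, map_mul, hx, hy, hz]
  ring

/-- the invertible matrix at `p` -/
private theorem det_K {f : MvPolynomial (Fin n) ℂ} {J : Fin r → Fin n}
    {a : MvPolynomial (Fin n) ℂ} {C' : Fin r → Fin r → MvPolynomial (Fin n) ℂ}
    {x : MvPolynomial (Fin n) ℂ} {p : Fin n → ℂ}
    (h : a * f = ∑ i, ∑ j, C' i j * (pderiv (J i) f * pderiv (J j) f) + x)
    (hx : ∀ l k, eval p (pderiv l (pderiv k x)) = 0)
    (hp0 : eval p f = 0) (hp1' : ∀ i, eval p (pderiv i f) = 0) (hpa : eval p a ≠ 0)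
    (hpd : (Matrix.of fun i j => eval p (pderiv (J i) (pderiv (J j) f))).det ≠ 0) :
    (Matrix.of fun i j => eval p (C' i j) + eval p (C' j i)).det ≠ 0 := by
  classical
  obtain ⟨H, hH⟩ : ∃ H : Matrix (Fin r) (Fin r) ℂ,
      H = Matrix.of fun i j => eval p (pderiv (J i) (pderiv (J j) f)) := ⟨_, rfl⟩
  obtain ⟨K, hK⟩ : ∃ K : Matrix (Fin r) (Fin r) ℂ,
      K = Matrix.of fun i j => eval p (C' i j) + eval p (C' j i) := ⟨_, rfl⟩
  rw [← hH] at hpd
  rw [← hK]
  have key : (eval p a) • H = H * K * H.transpose := by
    ext s t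
    have h1 := congrArg (fun G => eval p (pderiv (J s) (pderiv (J t) G))) h
    simp only [map_sum, map_add, hx, add_zero] at h1
    rw [MB.eval_pderiv_pderiv_mul' hp0 hp1'] at h1
    simp only [MB.eval_pderiv_pderiv_mul (hp1' _) (hp1' _)] at h1
    have h2 : ∀ i j, H i j = eval p (pderiv (J i) (pderiv (J j) f)) := fun i j => by rw [hH]; rfl
    simp only [← h2] at h1
    rw [Matrix.smul_apply, smul_eq_mul, h1, Matrix.mul_apply]
    simp only [Matrix.mul_apply, Matrix.transpose_apply, hK, Matrix.of_apply, Finset.sum_mul]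
    have h3 : ∀ i j : Fin r, eval p (C' i j) * (H s i * H t j + H t i * H s j) =
        eval p (C' i j) * (H s i * H t j) + eval p (C' i j) * (H t i * H s j) :=
      fun i j => by ring
    have h4 : ∀ x y : Fin r, H s y * (eval p (C' y x) + eval p (C' x y)) * H t x =
        eval p (C' y x) * (H s y * H t x) + eval p (C' x y) * (H t x * H s y) :=
      fun x y => by ring
    simp only [h3, h4, Finset.sum_add_distrib]
    congr 1
    exact Finset.sum_comm
  have h1 := congrArg Matrix.det key
  rw [Matrix.det_smul, Matrix.det_mul, Matrix.det_mul, Matrix.det_transpose] at h1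
  intro h0
  rw [h0, mul_zero, zero_mul] at h1
  exact mul_ne_zero (pow_ne_zero _ hpa) hpd h1

end SqhW

/-- Along `WA f J c m a` the polynomial is `a⁻¹ (∑ C_ij u_i u_j + ∑ d_i u_i v^(m-1) + e v^m)`,
`u_i = ∂_{J i} f`, `v = D^(m-1) f`, `D = DJ f J c`. Weights: `w(v) = 2`, `w(u_i) = m`, `N = 2 m`,
`u_i v^(m-1)` has the weight `3 m - 2 > 2 m`. `g` = the polynomial in `y_0` (for `v`), `y_{i+1}` (for
`u_i`). At `p ∈ W`: the `u_i`, `v` vanish; `D u_i = 0` (`DJ_u`) and `D v ≠ 0` show that `dv` is not in
the span of the `du_i`, which are independent because of the Hessian minor (as in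
`MB.sqhAlong_Wt`, `agSC/Cover.lean`). The weight `2 m` part at `p` is `∑ C_ij(p) y_i y_j + e(p) y_0^m`.
`K = C(p) + C(p)^T` is invertible: apply `∂_{J s} ∂_{J t}` at `p` to the relation; as `m ≥ 3` the terms
`u_i v^(m-1)`, `v^m` do not contribute: `a(p) H = H K H^T` as in `MB.sqhAlong_Wt`. `e(p) ≠ 0`: apply
`D^m` at `p`: `D^m(a f)(p) = a(p) (D^m f)(p) ≠ 0`, because `(D^j f)(p) = 0` for `j < m`; and
`D^m (C u_i u_j) = u_i u_j D^m C`, `D^m (d u_i v^(m-1)) = u_i D^m(d v^(m-1))` vanish at `p`, while
`D^m(e v^m)(p) = m! e(p) (D v)(p)^m`. -/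
theorem sqhAlong_WA {f : MvPolynomial (Fin n) ℂ} {J : Fin r → Fin n} {c : Fin n} {m : ℕ}
    (hm : 3 ≤ m) {a : MvPolynomial (Fin n) ℂ} {C' : Fin r → Fin r → MvPolynomial (Fin n) ℂ}
    {d : Fin r → MvPolynomial (Fin n) ℂ} {e : MvPolynomial (Fin n) ℂ}
    (h : a * f = ∑ i, ∑ j, C' i j * (pderiv (J i) f * pderiv (J j) f) +
      ∑ i, d i * (pderiv (J i) f * Df f J c (m - 1) ^ (m - 1)) + e * Df f J c (m - 1) ^ m) :
    SqhAlong f (WA f J c m a) (Fin.cons 2 (fun _ : Fin r => m) : Fin (r + 1) → ℕ) (2 * m) := by
  classical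
  obtain ⟨D, hD⟩ : ∃ D, D = DJ f J c := ⟨_, rfl⟩
  obtain ⟨V, hV⟩ : ∃ V, V = Df f J c (m - 1) := ⟨_, rfl⟩
  rw [← hV] at h
  obtain ⟨w, hw⟩ : ∃ w : Fin (r + 1) → ℕ, w = Fin.cons 2 (fun _ : Fin r => m) := ⟨_, rfl⟩
  have hw0 : w 0 = 2 := by rw [hw, Fin.cons_zero]
  have hws : ∀ i : Fin r, w i.succ = m := fun i => by rw [hw, Fin.cons_succ]
  obtain ⟨g1, hg1⟩ : ∃ g1 : MvPolynomial (Fin (r + 1)) (MvPolynomial (Fin n) ℂ),
      g1 = ∑ i : Fin r, ∑ j : Fin r, C (C' i j) * (X i.succ * X j.succ) := ⟨_, rfl⟩
  obtain ⟨g2, hg2⟩ : ∃ g2 : MvPolynomial (Fin (r + 1)) (MvPolynomial (Fin n) ℂ),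
      g2 = ∑ i : Fin r, C (d i) * (X i.succ * X 0 ^ (m - 1)) := ⟨_, rfl⟩
  obtain ⟨g3, hg3⟩ : ∃ g3 : MvPolynomial (Fin (r + 1)) (MvPolynomial (Fin n) ℂ),
      g3 = C e * X 0 ^ m := ⟨_, rfl⟩
  have wX : ∀ {A : Type} [CommRing A] (i : Fin (r + 1)),
      (X i : MvPolynomial (Fin (r + 1)) A).IsWeightedHomogeneous w (w i) := fun i =>
    isWeightedHomogeneous_X _ w i
  have w1 : ∀ {A : Type} [CommRing A] (c : Fin r → Fin r → A),
      (∑ i : Fin r, ∑ j : Fin r, C (c i j) * (X i.succ * X j.succ) :
        MvPolynomial (Fin (r + 1)) A).IsWeightedHomogeneous w (2 * m) := by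
    intro A _ c
    refine IsWeightedHomogeneous.sum _ _ _ fun i _ => IsWeightedHomogeneous.sum _ _ _ fun j _ => ?_
    have := ((isWeightedHomogeneous_C w (c i j)).mul ((wX (A := A) i.succ).mul (wX j.succ)))
    rw [hws, hws, zero_add, ← two_mul] at this
    exact this
  have w2 : ∀ {A : Type} [CommRing A] (c : Fin r → A),
      (∑ i : Fin r, C (c i) * (X i.succ * X 0 ^ (m - 1)) :
        MvPolynomial (Fin (r + 1)) A).IsWeightedHomogeneous w (m + (m - 1) * 2) := by
    intro A _ c
    refine IsWeightedHomogeneous.sum _ _ _ fun i _ => ?_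
    have := ((isWeightedHomogeneous_C w (c i)).mul
      ((wX (A := A) i.succ).mul ((wX (A := A) 0).pow (m - 1))))
    rw [hws, hw0, zero_add, smul_eq_mul] at this
    exact this
  have w3 : ∀ {A : Type} [CommRing A] (c : A),
      (C c * X 0 ^ m : MvPolynomial (Fin (r + 1)) A).IsWeightedHomogeneous w (2 * m) := by
    intro A _ c
    have := ((isWeightedHomogeneous_C w c).mul ((wX (A := A) 0).pow m))
    rw [hw0, zero_add, smul_eq_mul, mul_comm m 2] at this
    exact this
  rw [← hw]
  refine ⟨by omega, fun j => ?_, a, Fin.cons V (fun i => pderiv (J i) f), g1 + g2 + g3, ?_, ?_, ?_⟩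
  · refine Fin.cases ?_ (fun i => ?_) j
    · rw [hw0]
      omega
    · rw [hws]
      omega
  · rw [h, hg1, hg2, hg3]
    simp only [map_add, map_sum, map_mul, map_pow, eval_C, eval_X, Fin.cons_succ, Fin.cons_zero]
  · intro v hv
    have h1 : Finsupp.weight w v = 2 * m ∨ Finsupp.weight w v = m + (m - 1) * 2 := by
      by_contra hcon
      push Not at hcon
      apply mem_support_iff.1 hv
      rw [coeff_add, coeff_add]
      have e1 : coeff v g1 = 0 := by
        by_contra h0
        rw [hg1] at h0
        exact hcon.1 (w1 C' h0)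
      have e2 : coeff v g2 = 0 := by
        by_contra h0
        rw [hg2] at h0
        exact hcon.2 (w2 d h0)
      have e3 : coeff v g3 = 0 := by
        by_contra h0
        rw [hg3] at h0
        exact hcon.1 (w3 e h0)
      rw [e1, e2, e3, add_zero, add_zero]
    have h2 : Finsupp.weight w v = ∑ j, w j * v j := by
      rw [Finsupp.weight_apply, Finsupp.sum_fintype]
      · exact Finset.sum_congr rfl fun j _ => by rw [smul_eq_mul, mul_comm]
      · intro j
        rw [zero_smul]
    rw [← h2]
    rcases h1 with h1 | h1 <;> omega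
  · intro p hp
    obtain ⟨hp1, hpD, hpa, hpd, hpm⟩ := hp
    have hp1' : ∀ i, eval p (pderiv i f) = 0 := fun i => hp1 i (Finset.mem_univ i)
    have hDf : ∀ j, Df f J c j = D^[j] f := fun j => by rw [hD]; rfl
    have hpD' : ∀ j < m, eval p (D^[j] f) = 0 := fun j hj => by
      rw [← hDf]
      exact hpD j (Finset.mem_range.2 hj)
    have hp0 : eval p f = 0 := hpD' 0 (by omega)
    have hpV : eval p V = 0 := by
      rw [hV, hDf]
      exact hpD' _ (by omega)
    have hDV : eval p (D V) ≠ 0 := by
      rw [hV, hDf, ← Function.iterate_succ_apply' (⇑D) (m - 1) f]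
      have : m - 1 + 1 = m := by omega
      rw [Nat.succ_eq_add_one, this, ← hDf]
      exact hpm
    have hDu : ∀ i, D (pderiv (J i) f) = 0 := fun i => by
      rw [hD]
      exact DJ_u f J c i
    have hpd' : (Matrix.of fun i j => eval p (pderiv (J i) (pderiv (J j) f))).det ≠ 0 := by
      have h1 := MB.eval_det f J p
      rw [← h1]
      exact hpd
    refine ⟨hpa, fun j => ?_, ?_, ?_⟩
    · refine Fin.cases ?_ (fun i => ?_) j
      · rw [Fin.cons_zero]
        exact hpV
      · rw [Fin.cons_succ]
        exact hp1' _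
    · have h1 : (fun (j : Fin (r + 1)) (l : Fin n) => eval p (pderiv l
          ((Fin.cons V (fun i => pderiv (J i) f) : Fin (r + 1) → MvPolynomial (Fin n) ℂ) j))) =
          Fin.cons (fun l => eval p (pderiv l V))
            (fun (i : Fin r) (l : Fin n) => eval p (pderiv l (pderiv (J i) f))) := by
        funext j
        refine Fin.cases ?_ (fun i => ?_) j
        · rw [Fin.cons_zero, Fin.cons_zero]
        · rw [Fin.cons_succ, Fin.cons_succ]
      rw [h1, linearIndependent_finCons]
      constructor
      · have h1 : LinearIndependent ℂ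
            ((Matrix.of fun i j => eval p (pderiv (J i) (pderiv (J j) f))).transpose).row := by
          rw [Matrix.linearIndependent_rows_iff_isUnit, Matrix.isUnit_iff_isUnit_det,
            Matrix.det_transpose]
          exact isUnit_iff_ne_zero.2 hpd'
        refine LinearIndependent.of_comp (LinearMap.funLeft ℂ ℂ J) ?_
        have h2 : (LinearMap.funLeft ℂ ℂ J) ∘ (fun (j : Fin r) (l : Fin n) =>
            eval p (pderiv l (pderiv (J j) f))) =
            ((Matrix.of fun i j => eval p (pderiv (J i) (pderiv (J j) f))).transpose).row := by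
          funext j i
          rw [Function.comp_apply, LinearMap.funLeft_apply]
          rfl
        rw [h2]
        exact h1
      · intro hmem
        have h2 : Submodule.span ℂ (Set.range
            (fun (i : Fin r) (l : Fin n) => eval p (pderiv l (pderiv (J i) f)))) ≤
            LinearMap.ker (SqhW.fun1 D p) := by
          rw [Submodule.span_le]
          rintro _ ⟨i, rfl⟩
          show SqhW.fun1 D p _ = 0
          rw [SqhW.fun1_apply, hDu, map_zero]
        have h3 := h2 hmem
        rw [LinearMap.mem_ker, SqhW.fun1_apply] at h3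
        exact hDV h3
    · intro y hy
      -- the invertible matrix
      have hKd := SqhW.det_K (x := ∑ i, d i * (pderiv (J i) f * V ^ (m - 1)) + e * V ^ m)
        (by rw [h, add_assoc]) (p := p) (fun l k => by
          have e1 : V ^ (m - 1) = V * V * V ^ (m - 3) := by
            rw [← pow_two, ← pow_add]
            congr 1
            omega
          have e2 : V ^ m = V * V * V * V ^ (m - 3) := by
            rw [← pow_two, ← pow_succ, ← pow_add]
            congr 1
            omega
          have e3 : ∀ i, d i * (pderiv (J i) f * V ^ (m - 1)) =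
              (d i * V ^ (m - 3)) * (pderiv (J i) f * V * V) := fun i => by
            rw [e1]
            ring
          have e4 : e * V ^ m = (e * V ^ (m - 3)) * (V * V * V) := by
            rw [e2]
            ring
          simp only [e3, e4, map_add, map_sum]
          rw [SqhW.pderiv2_three hpV hpV hpV, add_zero]
          exact Finset.sum_eq_zero fun i _ => SqhW.pderiv2_three (hp1' _) hpV hpV l k)
        hp0 hp1' hpa hpd'
      -- `e` does not vanish
      have he : eval p e ≠ 0 := by
        intro he0
        have h1 := SqhW.der_iter_lead D p m a f hpD'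
        have h2 : eval p (D^[m] f) ≠ 0 := by
          rw [← hDf]
          exact hpm
        apply mul_ne_zero hpa h2
        rw [← h1, h]
        have hu : ∀ i x, eval p (D^[m] (pderiv (J i) f * x)) = 0 := fun i x => by
          rw [SqhW.der_iter_mul D (hDu i), map_mul, hp1', zero_mul]
        obtain ⟨L, hL⟩ : ∃ L : MvPolynomial (Fin n) ℂ →+ ℂ, ∀ x, L x = eval p (D^[m] x) :=
          ⟨{ toFun := fun x => eval p (D^[m] x)
             map_zero' := by rw [iterate_map_zero, map_zero]
             map_add' := fun x y => by rw [iterate_map_add, map_add] }, fun x => rfl⟩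
        rw [← hL, map_add, map_add, map_sum, map_sum]
        have t1 : ∑ i, L (∑ j, C' i j * (pderiv (J i) f * pderiv (J j) f)) = 0 := by
          refine Finset.sum_eq_zero fun i _ => ?_
          rw [map_sum]
          refine Finset.sum_eq_zero fun j _ => ?_
          rw [hL, show C' i j * (pderiv (J i) f * pderiv (J j) f) =
            pderiv (J i) f * (C' i j * pderiv (J j) f) by ring]
          exact hu _ _
        have t2 : ∑ i, L (d i * (pderiv (J i) f * V ^ (m - 1))) = 0 := by
          refine Finset.sum_eq_zero fun i _ => ?_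
          rw [hL, show d i * (pderiv (J i) f * V ^ (m - 1)) =
            pderiv (J i) f * (d i * V ^ (m - 1)) by ring]
          exact hu _ _
        have t3 : L (e * V ^ m) = 0 := by
          rw [hL]
          have h3 : e * V ^ m ∈ (SqhW.mI p) ^ (1 + m) := by
            rw [pow_add, pow_one]
            exact Ideal.mul_mem_mul (SqhW.mem_mI.2 he0)
              (Ideal.pow_mem_pow (SqhW.mem_mI.2 hpV) m)
          have h4 := SqhW.der_iter_pow D (SqhW.mI p) 1 m _ h3
          rw [pow_one] at h4
          exact SqhW.mem_mI.1 h4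
        rw [t1, t2, t3, add_zero, add_zero]
      -- the part of weight `2 m`
      have hq1 : map (eval p) g1 =
          ∑ i : Fin r, ∑ j : Fin r, C (eval p (C' i j)) * (X i.succ * X j.succ) := by
        rw [hg1]
        simp only [map_sum, map_mul, map_C, map_X]
      have hq2 : map (eval p) g2 = ∑ i : Fin r, C (eval p (d i)) * (X i.succ * X 0 ^ (m - 1)) := by
        rw [hg2]
        simp only [map_sum, map_mul, map_pow, map_C, map_X]
      have hq3 : map (eval p) g3 = C (eval p e) * X 0 ^ m := by
        rw [hg3]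
        simp only [map_mul, map_pow, map_C, map_X]
      have hq : weightedHomogeneousComponent w (2 * m) (map (eval p) (g1 + g2 + g3)) =
          ∑ i : Fin r, ∑ j : Fin r, C (eval p (C' i j)) * (X i.succ * X j.succ) +
            C (eval p e) * X 0 ^ m := by
        rw [map_add (map (eval p)), map_add (map (eval p)), map_add, map_add, hq1, hq2, hq3,
          (w1 _).weightedHomogeneousComponent_same, (w3 _).weightedHomogeneousComponent_same,
          (w2 _).weightedHomogeneousComponent_ne _ (by omega), add_zero]
      rw [hq]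
      by_contra hcon
      push Not at hcon
      apply hy
      -- the derivative for `y_0`
      have hy0 : y 0 = 0 := by
        have h2 := hcon 0
        rw [map_add, map_add, map_sum, map_sum] at h2
        have h3 : ∀ i : Fin r, eval y (pderiv 0 (∑ j : Fin r, C (eval p (C' i j)) *
            (X i.succ * X j.succ))) = 0 := by
          intro i
          rw [map_sum, map_sum]
          refine Finset.sum_eq_zero fun j _ => ?_
          rw [pderiv_C_mul, pderiv_mul, pderiv_X_of_ne (Fin.succ_ne_zero i),
            pderiv_X_of_ne (Fin.succ_ne_zero j)]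
          simp
        simp only [h3, Finset.sum_const_zero, zero_add] at h2
        rw [pderiv_C_mul, pderiv_pow, pderiv_X_self, mul_one, map_mul, map_mul, eval_C, map_pow,
          eval_X] at h2
        rcases mul_eq_zero.1 h2 with h4 | h4
        · exact absurd h4 he
        · rcases mul_eq_zero.1 h4 with h5 | h5
          · rw [map_natCast] at h5
            have : m = 0 := by exact_mod_cast h5
            omega
          · exact pow_eq_zero_iff (by omega) |>.1 h5
      -- the other derivatives
      have h1 : (Matrix.of fun i j => eval p (C' i j) + eval p (C' j i)).mulVec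
          (fun i : Fin r => y i.succ) = 0 := by
        funext l
        have h2 := hcon l.succ
        rw [map_add, map_add, map_sum, map_sum] at h2
        have h30 : eval y (pderiv l.succ (C (eval p e) * X 0 ^ m)) = 0 := by
          rw [pderiv_C_mul, pderiv_pow, pderiv_X_of_ne (Fin.succ_ne_zero l).symm]
          simp
        have h3 : ∀ i : Fin r, eval y (pderiv l.succ (∑ j : Fin r, C (eval p (C' i j)) *
            (X i.succ * X j.succ))) = ∑ j : Fin r, eval p (C' i j) *
              ((if i = l then y j.succ else 0) + (if j = l then y i.succ else 0)) := by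
          intro i
          rw [map_sum, map_sum]
          refine Finset.sum_congr rfl fun j _ => ?_
          rw [pderiv_C_mul, pderiv_mul, map_mul, eval_C, map_add, map_mul, map_mul, eval_X, eval_X]
          congr 1
          have hne : ∀ {s t : Fin r}, s ≠ t → s.succ ≠ t.succ := fun hst hh =>
            hst (Fin.succ_injective r hh)
          by_cases hi : i = l <;> by_cases hj : j = l
          · subst hi hj
            simp
          · subst hi
            rw [pderiv_X_self, pderiv_X_of_ne (hne hj), if_pos rfl, if_neg hj]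
            simp
          · subst hj
            rw [pderiv_X_self, pderiv_X_of_ne (hne hi), if_pos rfl, if_neg hi]
            simp
          · rw [pderiv_X_of_ne (hne hi), pderiv_X_of_ne (hne hj), if_neg hi, if_neg hj]
            simp
        rw [h30, add_zero] at h2
        simp only [h3, mul_add, Finset.sum_add_distrib, mul_ite, mul_zero] at h2
        rw [Finset.sum_comm] at h2
        simp only [Finset.sum_ite_eq', Finset.mem_univ, if_true] at h2
        show ∑ j, (eval p (C' l j) + eval p (C' j l)) * y j.succ = 0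
        rw [← h2, ← Finset.sum_add_distrib]
        refine Finset.sum_congr rfl fun j _ => ?_
        ring
      have h5 := Matrix.eq_zero_of_mulVec_eq_zero hKd h1
      funext j
      refine Fin.cases ?_ (fun i => ?_) j
      · exact hy0
      · exact congrFun h5 i

end CK

end MPb07157
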