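import Pool.Agent.Lib.MP_b07157_agSF.CaseA
import Pool.Agent.Lib.MP_b07157_agSF.Clos
import Pool.Agent.Lib.MP_b07157_agSF.Ind
import Pool.Agent.Lib.MP_b07157_agSF.LemL
import Pool.Agent.Lib.MP_b07157_agSF.Noeth
import Pool.Agent.Lib.MP_b07157_agSF.Pow
import Pool.Agent.Lib.MP_b07157_agSF.RankP
import Pool.Agent.Lib.MP_b07157_agSF.Repr
import Pool.Agent.Lib.MP_b07157_agSF.SqhW

/-!
# The strata
-/

noncomputable section

namespace MPb07157

open MvPolynomial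

namespace CK

variable {n r : ℕ}

theorem isConstr_WA (f : MvPolynomial (Fin n) ℂ) (J : Fin r → Fin n) (c : Fin n) (m : ℕ)
    (a : MvPolynomial (Fin n) ℂ) : IsConstr (WA f J c m a) := by
  refine isConstr_setOf_and (isConstr_forall_mem _ _ fun i _ => isConstr_eq_zero _)
    (isConstr_setOf_and (isConstr_forall_mem _ _ fun i _ => isConstr_eq_zero _)
      (isConstr_setOf_and (isConstr_ne_zero _)
        (isConstr_setOf_and (isConstr_ne_zero _) (isConstr_ne_zero _))))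

theorem Df_succ (f : MvPolynomial (Fin n) ℂ) (J : Fin r → Fin n) (c : Fin n) (j : ℕ) :
    Df f J c (j + 1) = DJ f J c (Df f J c j) := Function.iterate_succ_apply' _ _ _

theorem mem_sup_of_mem_snoc {q : Fin n → ℂ} {u : Fin r → MvPolynomial (Fin n) ℂ}
    {v : MvPolynomial (Fin n) ℂ} {F : MvPowerSeries (Fin n) ℂ}
    (h : F ∈ Ideal.span (Set.range fun i : Fin (r + 1) =>
      loc q ((Fin.snoc u v : Fin (r + 1) → MvPolynomial (Fin n) ℂ) i))) :
    F ∈ Ideal.span (Set.range fun i => loc q (u i)) ⊔ Ideal.span {loc q v} := by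
  refine (Ideal.span_le.2 ?_) h
  rintro _ ⟨i, rfl⟩
  refine Fin.lastCases ?_ (fun i => ?_) i
  · simp only [Fin.snoc_last]
    exact Ideal.mem_sup_right (Ideal.subset_span rfl)
  · simp only [Fin.snoc_castSucc]
    exact Ideal.mem_sup_left (Ideal.subset_span ⟨i, rfl⟩)

theorem iterate_ext {D : Derivation ℂ (MvPolynomial (Fin n) ℂ) (MvPolynomial (Fin n) ℂ)}
    {q : Fin n → ℂ} {D' : Derivation ℂ (MvPowerSeries (Fin n) ℂ) (MvPowerSeries (Fin n) ℂ)}
    (h : ∀ g, D' (loc q g) = loc q (D g)) (j : ℕ) (g : MvPolynomial (Fin n) ℂ) :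
    D'^[j] (loc q g) = loc q (D^[j] g) := by
  induction j with
  | zero => rfl
  | succ j ih => rw [Function.iterate_succ_apply', Function.iterate_succ_apply', ih, h]

theorem ext_U {f : MvPolynomial (Fin n) ℂ} {J : Fin r → Fin n} {c : Fin n} {q : Fin n → ℂ}
    {D' : Derivation ℂ (MvPowerSeries (Fin n) ℂ) (MvPowerSeries (Fin n) ℂ)}
    (h : ∀ g, D' (loc q g) = loc q (DJ f J c g)) :
    ∀ x ∈ Ideal.span (Set.range fun i => loc q (pderiv (J i) f)),
      D' x ∈ Ideal.span (Set.range fun i => loc q (pderiv (J i) f)) := by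
  intro x hx
  obtain ⟨a, rfl⟩ := (Ideal.mem_span_range_iff_exists_fun).1 hx
  rw [map_sum]
  refine Ideal.sum_mem _ fun i _ => ?_
  rw [Derivation.leibniz, h, DJ_u, map_zero, smul_zero, zero_add, smul_eq_mul]
  exact Ideal.mul_mem_right _ _ (Ideal.subset_span ⟨i, rfl⟩)

theorem isUnit_det_loc {f : MvPolynomial (Fin n) ℂ} {J : Fin r → Fin n} {q : Fin n → ℂ}
    (hδ : eval q (Hm f J).det ≠ 0) :
    IsUnit (Matrix.of fun i j : Fin r => MvPowerSeries.pderiv ℂ (J i)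
      (MvPowerSeries.pderiv ℂ (J j) (loc q f))).det := by
  have e1 : (Matrix.of fun i j : Fin r => MvPowerSeries.pderiv ℂ (J i)
      (MvPowerSeries.pderiv ℂ (J j) (loc q f))) = (Hm f J).map (loc q) := by
    ext1 i j
    rw [Matrix.of_apply, Matrix.map_apply, pderiv_loc, pderiv_loc]
    rfl
  have e2 : ((Hm f J).map (loc q)).det = loc q (Hm f J).det := by
    rw [← AlgHom.coe_toRingHom, RingHom.map_det]
    rfl
  rw [e1, e2, isUnit_loc]
  exact hδ

/-- Near `q` the polynomial is in the ideal of the `∂_{J i} f`. -/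
theorem stratum_one {f : MvPolynomial (Fin n) ℂ} {𝔭 : Ideal (MvPolynomial (Fin n) ℂ)}
    (h𝔭 : 𝔭.IsPrime) (hs : ∀ i, pderiv i f ∈ 𝔭) {J : Fin r → Fin n} {q : Fin n → ℂ}
    (hq : q ∈ Vz 𝔭) (hδ : eval q (Hm f J).det ≠ 0)
    (hf : loc q f ∈ Ideal.span (Set.range fun i => loc q (pderiv (J i) f))) :
    ∃ W : Set (Fin n → ℂ), IsConstr W ∧ (∃ (k : ℕ) (w : Fin k → ℕ) (N : ℕ), SqhAlong f W w N) ∧
      ∃ δ ∉ 𝔭, ∀ q ∈ Vz 𝔭, eval q δ ≠ 0 → q ∈ W := by
  have hF : loc q f ∈ Ideal.span (Set.range fun i => MvPowerSeries.pderiv ℂ (J i) (loc q f)) ⊔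
      Ideal.span {(0 : MvPowerSeries (Fin n) ℂ) ^ 2} := by
    refine Ideal.mem_sup_left ?_
    simp only [pderiv_loc]
    exact hf
  obtain ⟨C', d, e, hC⟩ := exists_repr two_pos hF (isUnit_det_loc hδ)
  have h1 : loc q f ∈ (MB.sqI f J).map (loc q) := by
    rw [hC]
    simp only [pderiv_loc, show 2 - 1 = 1 from rfl, pow_one, mul_zero, Finset.sum_const_zero,
      add_zero, zero_pow two_ne_zero]
    refine Ideal.sum_mem _ fun i _ => Ideal.sum_mem _ fun j _ => Ideal.mul_mem_left _ _ ?_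
    rw [← map_mul]
    exact Ideal.mem_map_of_mem _ (Ideal.subset_span ⟨(i, j), rfl⟩)
  obtain ⟨s, hs0, hsf⟩ := exists_mem q h1
  have hs𝔭 : s ∉ 𝔭 := fun h => hs0 (hq s h)
  have hδ𝔭 : (Hm f J).det ∉ 𝔭 := fun h => hδ (hq _ h)
  refine ⟨MB.Wt f J s, MB.isConstr_Wt f J s, ⟨r, _, _, MB.sqhAlong_Wt (MB.mem_aI.2 hsf)⟩,
    s * (Hm f J).det, fun h => ?_, fun p hp hp0 => ?_⟩
  · rcases h𝔭.mem_or_mem h with h | h
    · exact hs𝔭 h
    · exact hδ𝔭 h
  · rw [map_mul] at hp0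
    exact ⟨fun i _ => hp _ (hs i), left_ne_zero_of_mul hp0, right_ne_zero_of_mul hp0⟩

/-- The ideal of the monomials of weight at least `2 m`. -/
def JN (f : MvPolynomial (Fin n) ℂ) (J : Fin r → Fin n) (v : MvPolynomial (Fin n) ℂ) (m : ℕ) :
    Ideal (MvPolynomial (Fin n) ℂ) :=
  Ideal.span (Set.range fun q : Fin r × Fin r => pderiv (J q.1) f * pderiv (J q.2) f) ⊔
    (Ideal.span (Set.range fun i : Fin r => pderiv (J i) f * v ^ (m - 1)) ⊔
      Ideal.span {v ^ m})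

/-- The derivatives of `f` along `DJ f J c` of order less than `m` vanish on the zero set, and the
derivative of order `m` does not. -/
theorem stratum_two {f : MvPolynomial (Fin n) ℂ} {𝔭 : Ideal (MvPolynomial (Fin n) ℂ)}
    (h𝔭 : 𝔭.IsPrime) (hs : ∀ i, pderiv i f ∈ 𝔭) (hinf : (Vz 𝔭).Infinite) {J : Fin r → Fin n}
    (hnr : n ≤ r + 2) (hδ : (Hm f J).det ∉ 𝔭) {c : Fin n} {m : ℕ} (hm : 3 ≤ m)
    (hlt : ∀ j < m, Df f J c j ∈ 𝔭) (hDm : Df f J c m ∉ 𝔭) :
    ∃ W : Set (Fin n → ℂ), IsConstr W ∧ (∃ (k : ℕ) (w : Fin k → ℕ) (N : ℕ), SqhAlong f W w N) ∧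
      ∃ δ ∉ 𝔭, ∀ q ∈ Vz 𝔭, eval q δ ≠ 0 → q ∈ W := by
  obtain ⟨q, hq, hq0⟩ := exists_eval_ne_zero h𝔭 (δ := (Hm f J).det * Df f J c m) (fun h => by
    rcases h𝔭.mem_or_mem h with h | h
    · exact hδ h
    · exact hDm h)
  rw [map_mul] at hq0
  have hδq := left_ne_zero_of_mul hq0
  have hDq := right_ne_zero_of_mul hq0
  set v : MvPolynomial (Fin n) ℂ := Df f J c (m - 1) with hv
  have hDv : DJ f J c v = Df f J c m := by
    rw [hv, ← Df_succ, Nat.sub_add_cancel (by omega)]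
  have hv𝔭 : v ∈ 𝔭 := hlt _ (by omega)
  have hU : ∀ g ∈ 𝔭, loc q g ∈ Ideal.span (Set.range fun i => loc q (pderiv (J i) f)) ⊔
      Ideal.span {loc q v} := by
    intro g hg
    refine mem_sup_of_mem_snoc (loc_mem_of_indep h𝔭 hinf hq (k := r + 1)
      (w := Fin.snoc (fun i => pderiv (J i) f) v) (by omega) (fun i => ?_)
      (li_uv hδq (by rw [hDv]; exact hDq)) hg)
    refine Fin.lastCases ?_ (fun i => ?_) i
    · simp only [Fin.snoc_last]
      exact hv𝔭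
    · simp only [Fin.snoc_castSucc]
      exact hs _
  obtain ⟨D', hD'⟩ := exists_ext (DJ f J c) q
  have hF : loc q f ∈ Ideal.span (Set.range fun i => loc q (pderiv (J i) f)) ⊔
      Ideal.span {loc q v ^ m} := by
    refine mem_pow D' (ext_U hD') ?_ fun j hj => ?_
    · rw [hD', hDv, isUnit_loc]
      exact hDq
    · rw [iterate_ext hD']
      exact hU _ (hlt j hj)
  have hF' : loc q f ∈ Ideal.span (Set.range fun i => MvPowerSeries.pderiv ℂ (J i) (loc q f)) ⊔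
      Ideal.span {loc q v ^ m} := by
    simp only [pderiv_loc]
    exact hF
  obtain ⟨C', d, e, hC⟩ := exists_repr (by omega) hF' (isUnit_det_loc hδq)
  have h1 : loc q f ∈ (JN f J v m).map (loc q) := by
    rw [hC]
    simp only [pderiv_loc, ← map_pow, ← map_mul]
    refine Ideal.add_mem _ (Ideal.add_mem _ (Ideal.sum_mem _ fun i _ => Ideal.sum_mem _ fun j _ =>
      Ideal.mul_mem_left _ _ (Ideal.mem_map_of_mem _ ?_)) (Ideal.sum_mem _ fun i _ =>
      Ideal.mul_mem_left _ _ (Ideal.mem_map_of_mem _ ?_)))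
      (Ideal.mul_mem_left _ _ (Ideal.mem_map_of_mem _ ?_))
    · exact Ideal.mem_sup_left (Ideal.subset_span ⟨(i, j), rfl⟩)
    · exact Ideal.mem_sup_right (Ideal.mem_sup_left (Ideal.subset_span ⟨i, rfl⟩))
    · exact Ideal.mem_sup_right (Ideal.mem_sup_right (Ideal.subset_span rfl))
  obtain ⟨a, ha0, haf⟩ := exists_mem q h1
  have ha𝔭 : a ∉ 𝔭 := fun h => ha0 (hq a h)
  obtain ⟨x, hx, y, hy, hxy⟩ := Submodule.mem_sup.1 haf
  obtain ⟨y1, hy1, y2, hy2, hyy⟩ := Submodule.mem_sup.1 hy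
  obtain ⟨C1, hC1⟩ := (Ideal.mem_span_range_iff_exists_fun).1 hx
  obtain ⟨d1, hd1⟩ := (Ideal.mem_span_range_iff_exists_fun).1 hy1
  obtain ⟨e1, he1⟩ := (Ideal.mem_span_singleton'.1 hy2)
  have haf' : a * f = ∑ i, ∑ j, C1 (i, j) * (pderiv (J i) f * pderiv (J j) f) +
      ∑ i, d1 i * (pderiv (J i) f * Df f J c (m - 1) ^ (m - 1)) + e1 * Df f J c (m - 1) ^ m := by
    rw [Fintype.sum_prod_type] at hC1
    rw [← hxy, ← hyy, ← hC1, ← hd1, ← he1, add_assoc]
  refine ⟨WA f J c m a, isConstr_WA f J c m a, ⟨r + 1, _, _, sqhAlong_WA hm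
    (C' := fun i j => C1 (i, j)) haf'⟩, a * ((Hm f J).det * Df f J c m), fun h => ?_,
    fun p hp hp0 => ?_⟩
  · rcases h𝔭.mem_or_mem h with h | h
    · exact ha𝔭 h
    · rcases h𝔭.mem_or_mem h with h | h
      · exact hδ h
      · exact hDm h
  · rw [map_mul, map_mul] at hp0
    exact ⟨fun i _ => hp _ (hs i), fun j hj => hp _ (hlt j (Finset.mem_range.1 hj)),
      left_ne_zero_of_mul hp0, left_ne_zero_of_mul (right_ne_zero_of_mul hp0),
      right_ne_zero_of_mul (right_ne_zero_of_mul hp0)⟩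

theorem der_mem {f : MvPolynomial (Fin n) ℂ} {𝔭 : Ideal (MvPolynomial (Fin n) ℂ)}
    (hs : ∀ i, pderiv i f ∈ 𝔭)
    (D : Derivation ℂ (MvPolynomial (Fin n) ℂ) (MvPolynomial (Fin n) ℂ))
    (h : ∀ i, D (pderiv i f) ∈ 𝔭) : D f ∈ 𝔭 ∧ D (D f) ∈ 𝔭 := by
  have h1 : D f = ∑ l, D (X l) * pderiv l f := by
    have h2 : D = ∑ l, D (X l) • (pderiv l : Derivation ℂ (MvPolynomial (Fin n) ℂ) _) := by
      refine MvPolynomial.derivation_ext fun i => ?_
      rw [sum_der, Finset.sum_eq_single i]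
      · rw [Derivation.smul_apply, pderiv_X_self, smul_eq_mul, mul_one]
      · intro l _ hl
        rw [Derivation.smul_apply, pderiv_X_of_ne (Ne.symm hl), smul_zero]
      · exact fun h => absurd (Finset.mem_univ i) h
    conv_lhs => rw [h2]
    rw [sum_der]
    rfl
  have h2 : D f ∈ 𝔭 := by
    rw [h1]
    exact Ideal.sum_mem _ fun l _ => Ideal.mul_mem_left _ _ (hs l)
  refine ⟨h2, ?_⟩
  rw [h1, map_sum]
  refine Ideal.sum_mem _ fun l _ => ?_
  rw [Derivation.leibniz, smul_eq_mul, smul_eq_mul]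
  exact Ideal.add_mem _ (Ideal.mul_mem_left _ _ (h l)) (Ideal.mul_mem_right _ _ (hs l))

theorem exists_stratum {f : MvPolynomial (Fin n) ℂ} {𝔭 : Ideal (MvPolynomial (Fin n) ℂ)}
    (h𝔭 : 𝔭.IsPrime) (hf : f ∈ 𝔭) (hs : ∀ i, pderiv i f ∈ 𝔭) (hinf : (Vz 𝔭).Infinite)
    {q₀ : Fin n → ℂ} (hq₀ : q₀ ∈ Vz 𝔭) (hr : n ≤ (YG.hessAt f q₀).rank + 2) :
    ∃ W : Set (Fin n → ℂ), IsConstr W ∧ (∃ (k : ℕ) (w : Fin k → ℕ) (N : ℕ), SqhAlong f W w N) ∧
      ∃ δ ∉ 𝔭, ∀ q ∈ Vz 𝔭, eval q δ ≠ 0 → q ∈ W := by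
  classical
  obtain ⟨r, J, hnr, hJ, hδ, hD⟩ := exists_minorP h𝔭 hq₀ hr
  by_cases hst : ∀ c, ∀ g ∈ 𝔭, DJ f J c g ∈ 𝔭
  · obtain ⟨q, hq, hq0⟩ := exists_eval_ne_zero h𝔭 hδ
    exact stratum_one h𝔭 hs hq hq0 (loc_mem_of_stable hJ hq hq0 (fun i => hs _) hst hf)
  push Not at hst
  obtain ⟨c, v, hv, hDv⟩ := hst
  by_cases hall : ∀ j, Df f J c j ∈ 𝔭
  · obtain ⟨q, hq, hq0⟩ := exists_eval_ne_zero h𝔭 (δ := (Hm f J).det * DJ f J c v) (fun h => by
      rcases h𝔭.mem_or_mem h with h | h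
      · exact hδ h
      · exact hDv h)
    rw [map_mul] at hq0
    have hδq := left_ne_zero_of_mul hq0
    have hDq := right_ne_zero_of_mul hq0
    have hli := li_uv hδq hDq
    have hU : ∀ g ∈ 𝔭, loc q g ∈ Ideal.span (Set.range fun i => loc q (pderiv (J i) f)) ⊔
        Ideal.span {loc q v} := by
      intro g hg
      refine mem_sup_of_mem_snoc (loc_mem_of_indep h𝔭 hinf hq (k := r + 1)
        (w := Fin.snoc (fun i => pderiv (J i) f) v) (by omega) (fun i => ?_) hli hg)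
      refine Fin.lastCases ?_ (fun i => ?_) i
      · simp only [Fin.snoc_last]
        exact hv
      · simp only [Fin.snoc_castSucc]
        exact hs _
    obtain ⟨D', hD'⟩ := exists_ext (DJ f J c) q
    refine stratum_one h𝔭 hs hq hδq (mem_of_forall_pow (fun i => hq _ (hs _)) (hq _ hv) hli
      fun m => ?_)
    refine mem_pow D' (ext_U hD') ?_ fun j hj => ?_
    · rw [hD', isUnit_loc]
      exact hDq
    · rw [iterate_ext hD']
      exact hU _ (hall j)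
  · push Not at hall
    have hex : ∃ m, Df f J c m ∉ 𝔭 := hall
    have hlt : ∀ j < Nat.find hex, Df f J c j ∈ 𝔭 := fun j hj => not_not.1 (Nat.find_min hex hj)
    obtain ⟨h1, h2⟩ := der_mem hs (DJ f J c) (hD c)
    refine stratum_two h𝔭 hs hinf hnr hδ (c := c) (m := Nat.find hex) ?_ hlt (Nat.find_spec hex)
    by_contra hcon
    push Not at hcon
    have h3 := Nat.find_spec hex
    have h4 : Nat.find hex = 0 ∨ Nat.find hex = 1 ∨ Nat.find hex = 2 := by omega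
    rcases h4 with h4 | h4 | h4
    · rw [h4] at h3
      exact h3 hf
    · rw [h4] at h3
      exact h3 h1
    · rw [h4] at h3
      exact h3 h2

end CK

end MPb07157
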